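import Mathlib

set_option autoImplicit false

/-!
# FF24/Defs: polytopes given by their facets, gluing data, labels, stars

`HPoly`: finite set `N` of unit vectors (the outer normals of the facets) and support numbers `h`. `body` = the
polytope, `fc u` = the facet, `act y` = the normals of the facets through `y`, `mf y` = the minimal face of `y`.

`Glue`: `I` = the facets glued to themselves by a point reflection `z ↦ c u - z`; the other facets are glued to the
opposite facet by the translation `z ↦ z + c u`. `j u` = the gluing map of the facet `u`, `star u` = the normal of the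
facet to which `u` is glued.

Labels `(e, t)`, `e = ± 1`: the tile is `e • body + t`. `nb u τ` = the tile behind the facet `u` of the tile `τ`.
`R p τ σ`: the tile `σ` is reached from the tile `τ` through facets which contain `p`.
-/

open Set Metric
open scoped RealInnerProductSpace

namespace Pool.FF24

/-- a convex polytope with interior points, given by its facets -/
structure HPoly (E : Type*) [NormedAddCommGroup E] [InnerProductSpace ℝ E] where
  /-- the outer unit normals of the facets -/
  N : Finset E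
  /-- the support numbers -/
  h : E → ℝ
  unit : ∀ u ∈ N, ‖u‖ = 1
  bdd : ∃ r : ℝ, ∀ z : E, (∀ u ∈ N, ⟪u, z⟫ ≤ h u) → ‖z‖ ≤ r
  int : ∃ z : E, ∀ u ∈ N, ⟪u, z⟫ < h u
  real : ∀ u ∈ N, ∃ z : E, (∀ v ∈ N, ⟪v, z⟫ ≤ h v) ∧ ∀ v ∈ N, (⟪v, z⟫ = h v ↔ v = u)

variable {E : Type*} [NormedAddCommGroup E] [InnerProductSpace ℝ E]

namespace HPoly

/-- the polytope -/
def body (P : HPoly E) : Set E := {z | ∀ u ∈ P.N, ⟪u, z⟫ ≤ P.h u}

/-- the normals of the facets through `y` -/
def act (P : HPoly E) (y : E) : Set E := {u | u ∈ P.N ∧ ⟪u, y⟫ = P.h u}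

/-- the facet with normal `u` -/
def fc (P : HPoly E) (u : E) : Set E := {z | z ∈ P.body ∧ ⟪u, z⟫ = P.h u}

/-- the minimal face of `y` -/
def mf (P : HPoly E) (y : E) : Set E := {z | z ∈ P.body ∧ ∃ s : ℝ, 0 < s ∧ y + s • (y - z) ∈ P.body}

end HPoly

/-- gluing data for the facets -/
structure Glue (P : HPoly E) where
  /-- the facets which are glued to themselves by a point reflection -/
  I : Set E
  c : E → E
  inv : ∀ u ∈ P.N, u ∈ I → ∀ z ∈ P.fc u, c u - z ∈ P.fc u
  negN : ∀ u ∈ P.N, u ∉ I → -u ∈ P.N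
  negI : ∀ u ∈ P.N, u ∉ I → -u ∉ I
  tr : ∀ u ∈ P.N, u ∉ I → ∀ z ∈ P.fc u, z + c u ∈ P.fc (-u)

/-- the point of the tile with label `τ` which corresponds to `z` -/
def X (τ : ℝ × E) (z : E) : E := τ.1 • z + τ.2

/-- own coordinates of `p` in the tile with label `τ` -/
def crd (τ : ℝ × E) (p : E) : E := τ.1 • (p - τ.2)

namespace Glue

variable {P : HPoly E} (g : Glue P)

open Classical in
/-- the facet to which the facet `u` is glued -/
noncomputable def star (u : E) : E := if u ∈ g.I then u else -u

open Classical in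
/-- the gluing map of the facet `u` -/
noncomputable def j (u z : E) : E := if u ∈ g.I then g.c u - z else z + g.c u

open Classical in
/-- the label of the tile behind the facet `u` of the tile with label `τ` -/
noncomputable def nb (u : E) (τ : ℝ × E) : ℝ × E :=
  if u ∈ g.I then (-τ.1, τ.2 + τ.1 • g.c u) else (τ.1, τ.2 - τ.1 • g.c u)

/-- the labels which are reached from `(1, 0)` -/
inductive Orb : ℝ × E → Prop
  | base : Orb (1, 0)
  | step {τ : ℝ × E} {u : E} : Orb τ → u ∈ P.N → Orb (g.nb u τ)

/-- the type of the labels -/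
def Lab : Type _ := {τ : ℝ × E // g.Orb τ}

/-- the tile -/
def K (τ : g.Lab) : Set E := {p | crd τ.1 p ∈ P.body}

/-- one step through a facet which contains `p` -/
def St (p : E) (τ σ : g.Lab) : Prop := ∃ u ∈ P.N, crd τ.1 p ∈ P.fc u ∧ σ.1 = g.nb u τ.1

/-- the star of `τ` at `p` -/
def R (p : E) (τ σ : g.Lab) : Prop := p ∈ g.K τ ∧ Relation.ReflTransGen (g.St p) τ σ

/-- the bad points: three facets of a tile with independent normals meet (their hyperplanes) -/
def Bad : Set E := {p | ∃ τ : g.Lab, ∃ u ∈ P.N, ∃ v ∈ P.N, ∃ w ∈ P.N,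
  LinearIndependent ℝ ![u, v, w] ∧ ⟪u, crd τ.1 p⟫ = P.h u ∧ ⟪v, crd τ.1 p⟫ = P.h v ∧
    ⟪w, crd τ.1 p⟫ = P.h w}

/-- crossing the facet `v` near the ridge of the facets `u`, `v` (entered through `u`): in the next tile the ridge
belongs to the facets `u' = star v` and `v'` -/
def Cross (a b : E × E) : Prop :=
  a.1 ≠ a.2 ∧ b.1 ≠ b.2 ∧ b.1 = g.star a.2 ∧
    ∃ y ∈ P.body, P.act y = {a.1, a.2} ∧ P.act (g.j a.2 y) = {b.1, b.2}

open Classical in
/-- THE RIDGE CONDITION: the flags around a ridge repeat after 3 steps, or after 4 steps with an even number of point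
reflections. -/
def Cyc : Prop := ∀ a : ℕ → E × E, (∀ i, g.Cross (a i) (a (i + 1))) →
  a 3 = a 0 ∨ (a 4 = a 0 ∧ Even ((Finset.range 4).filter fun i => (a i).2 ∈ g.I).card)

end Glue

end Pool.FF24
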