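import Pool.Agent.FF24.Defs

set_option autoImplicit false

/-!
# FF24/Basic: elementary facts on labels, neighbours, gluing maps

`c_neg`: `F_u + c u ⊆ F_(-u)`, `F_(-u) + c (-u) ⊆ F_u`; the facets are nonempty (`P.real`) and bounded (`P.bdd`), so the
translation by `c u + c (-u)` (all its multiples) is `0`.
`R_symm`: if `σ = nb u τ` and `crd τ p ∈ fc u` then `crd σ p = j u (crd τ p) ∈ fc (star u)` and `τ = nb (star u) σ`.
-/

open Set Metric
open scoped RealInnerProductSpace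

namespace Pool.FF24

variable {E : Type*} [NormedAddCommGroup E] [InnerProductSpace ℝ E] {P : HPoly E} (g : Glue P)

theorem Orb.sign {τ : ℝ × E} (h : g.Orb τ) : τ.1 = 1 ∨ τ.1 = -1 := by
  induction h with
  | base => exact Or.inl rfl
  | @step τ u _ _ ih =>
    unfold Glue.nb
    split_ifs
    · rcases ih with ih | ih
      · exact Or.inr (by simp [ih])
      · exact Or.inl (by simp [ih])
    · exact ih

theorem sign (τ : g.Lab) : τ.1.1 = 1 ∨ τ.1.1 = -1 := Orb.sign g τ.2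

theorem X_crd {τ : ℝ × E} (h : τ.1 = 1 ∨ τ.1 = -1) (p : E) : X τ (crd τ p) = p := by
  unfold X crd
  rcases h with h | h <;> rw [h] <;> simp

theorem crd_X {τ : ℝ × E} (h : τ.1 = 1 ∨ τ.1 = -1) (z : E) : crd τ (X τ z) = z := by
  unfold X crd
  rcases h with h | h <;> rw [h] <;> simp

theorem fc_nonempty {u : E} (hu : u ∈ P.N) : (P.fc u).Nonempty := by
  obtain ⟨z, hz1, hz2⟩ := P.real u hu
  exact ⟨z, hz1, (hz2 u hu).2 rfl⟩

theorem c_neg {u : E} (hu : u ∈ P.N) (hI : u ∉ g.I) : g.c (-u) = -g.c u := by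
  have hu' := g.negN u hu hI
  have hI' := g.negI u hu hI
  obtain ⟨z, hz⟩ := fc_nonempty hu
  have step : ∀ y ∈ P.fc u, y + (g.c u + g.c (-u)) ∈ P.fc u := by
    intro y hy
    have h1 := g.tr (-u) hu' hI' _ (g.tr u hu hI y hy)
    rw [neg_neg, add_assoc] at h1
    exact h1
  have hn : ∀ n : ℕ, z + (n : ℝ) • (g.c u + g.c (-u)) ∈ P.fc u := by
    intro n
    induction n with
    | zero => simpa using hz
    | succ n ih =>
      have h1 := step _ ih
      rw [add_assoc] at h1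
      have e : ((n + 1 : ℕ) : ℝ) • (g.c u + g.c (-u)) =
          (n : ℝ) • (g.c u + g.c (-u)) + (g.c u + g.c (-u)) := by
        push_cast
        rw [add_smul, one_smul]
      rw [e]
      exact h1
  obtain ⟨r, hr⟩ := P.bdd
  set w := g.c u + g.c (-u) with hw
  have hb : ∀ n : ℕ, (n : ℝ) * ‖w‖ ≤ r + ‖z‖ := by
    intro n
    have h1 := hr _ (hn n).1
    have h2 : (n : ℝ) • w = (z + (n : ℝ) • w) - z := by abel
    calc (n : ℝ) * ‖w‖ = ‖(n : ℝ) • w‖ := by rw [norm_smul, Real.norm_natCast]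
      _ = ‖(z + (n : ℝ) • w) - z‖ := by rw [← h2]
      _ ≤ ‖z + (n : ℝ) • w‖ + ‖z‖ := norm_sub_le _ _
      _ ≤ r + ‖z‖ := by linarith
  have hw0 : w = 0 := by
    by_contra hne
    have hpos : 0 < ‖w‖ := norm_pos_iff.2 hne
    obtain ⟨n, hn'⟩ := exists_nat_gt ((r + ‖z‖) / ‖w‖)
    rw [div_lt_iff₀ hpos] at hn'
    exact absurd (hb n) (not_le.2 hn')
  exact (neg_eq_of_add_eq_zero_right (hw ▸ hw0)).symm

theorem star_mem {u : E} (hu : u ∈ P.N) : g.star u ∈ P.N := by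
  unfold Glue.star
  split_ifs with h
  · exact hu
  · exact g.negN u hu h

theorem star_star {u : E} (hu : u ∈ P.N) : g.star (g.star u) = u := by
  by_cases h : u ∈ g.I
  · have e : g.star u = u := if_pos h
    rw [e, e]
  · have e : g.star u = -u := if_neg h
    have e' : g.star (-u) = -(-u) := if_neg (g.negI u hu h)
    rw [e, e', neg_neg]

theorem star_I {u : E} (hu : u ∈ P.N) : g.star u ∈ g.I ↔ u ∈ g.I := by
  by_cases h : u ∈ g.I
  · have e : g.star u = u := if_pos h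
    rw [e]
  · have e : g.star u = -u := if_neg h
    rw [e]
    exact ⟨fun h' => absurd h' (g.negI u hu h), fun h' => absurd h' h⟩

theorem j_mem {u z : E} (hu : u ∈ P.N) (hz : z ∈ P.fc u) : g.j u z ∈ P.fc (g.star u) := by
  by_cases h : u ∈ g.I
  · have e : g.star u = u := if_pos h
    have e' : g.j u z = g.c u - z := if_pos h
    rw [e, e']
    exact g.inv u hu h z hz
  · have e : g.star u = -u := if_neg h
    have e' : g.j u z = z + g.c u := if_neg h
    rw [e, e']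
    exact g.tr u hu h z hz

theorem j_j {u : E} (hu : u ∈ P.N) (z : E) : g.j (g.star u) (g.j u z) = z := by
  by_cases h : u ∈ g.I
  · have e : g.star u = u := if_pos h
    have e' : ∀ y, g.j u y = g.c u - y := fun y => if_pos h
    rw [e, e', e', sub_sub_cancel]
  · have e : g.star u = -u := if_neg h
    have e' : g.j u z = z + g.c u := if_neg h
    have e'' : ∀ y, g.j (-u) y = y + g.c (-u) := fun y => if_neg (g.negI u hu h)
    rw [e, e', e'', c_neg g hu h, add_neg_cancel_right]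

theorem nb_nb {u : E} (hu : u ∈ P.N) (τ : ℝ × E) : g.nb (g.star u) (g.nb u τ) = τ := by
  by_cases h : u ∈ g.I
  · have e : g.star u = u := if_pos h
    have e' : ∀ σ : ℝ × E, g.nb u σ = (-σ.1, σ.2 + σ.1 • g.c u) := fun σ => if_pos h
    rw [e, e', e']
    refine Prod.ext ?_ ?_
    · exact neg_neg _
    · change τ.2 + τ.1 • g.c u + (-τ.1) • g.c u = τ.2
      rw [neg_smul, add_neg_cancel_right]
  · have e : g.star u = -u := if_neg h
    have e' : g.nb u τ = (τ.1, τ.2 - τ.1 • g.c u) := if_neg h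
    have e'' : ∀ σ : ℝ × E, g.nb (-u) σ = (σ.1, σ.2 - σ.1 • g.c (-u)) :=
      fun σ => if_neg (g.negI u hu h)
    rw [e, e', e'', c_neg g hu h]
    refine Prod.ext rfl ?_
    change τ.2 - τ.1 • g.c u - τ.1 • (-g.c u) = τ.2
    rw [smul_neg, sub_neg_eq_add, sub_add_cancel]

theorem crd_nb {τ : ℝ × E} (h : τ.1 = 1 ∨ τ.1 = -1) (u p : E) :
    crd (g.nb u τ) p = g.j u (crd τ p) := by
  have hsq : τ.1 • (τ.1 • g.c u) = g.c u := by
    rcases h with h | h <;> rw [h] <;> simp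
  by_cases hI : u ∈ g.I
  · have e : g.nb u τ = (-τ.1, τ.2 + τ.1 • g.c u) := if_pos hI
    have e' : ∀ y, g.j u y = g.c u - y := fun y => if_pos hI
    rw [e, e']
    change (-τ.1) • (p - (τ.2 + τ.1 • g.c u)) = g.c u - τ.1 • (p - τ.2)
    rw [neg_smul, ← sub_sub, smul_sub τ.1 (p - τ.2), hsq]
    abel
  · have e : g.nb u τ = (τ.1, τ.2 - τ.1 • g.c u) := if_neg hI
    have e' : ∀ y, g.j u y = y + g.c u := fun y => if_neg hI
    rw [e, e']
    change τ.1 • (p - (τ.2 - τ.1 • g.c u)) = τ.1 • (p - τ.2) + g.c u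
    have e2 : p - (τ.2 - τ.1 • g.c u) = (p - τ.2) + τ.1 • g.c u := by abel
    rw [e2, smul_add, hsq]

/-- the neighbour as a label -/
noncomputable def nbL {u : E} (hu : u ∈ P.N) (τ : g.Lab) : g.Lab := ⟨g.nb u τ.1, τ.2.step hu⟩

theorem St_fc {p : E} {τ σ : g.Lab} {u : E} (hu : u ∈ P.N) (h : crd τ.1 p ∈ P.fc u)
    (hσ : σ.1 = g.nb u τ.1) : crd σ.1 p ∈ P.fc (g.star u) := by
  rw [hσ, crd_nb g (sign g τ)]
  exact j_mem g hu h

theorem St_symm {p : E} {τ σ : g.Lab} (h : g.St p τ σ) : g.St p σ τ := by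
  obtain ⟨u, hu, hc, hσ⟩ := h
  refine ⟨g.star u, star_mem g hu, St_fc g hu hc hσ, ?_⟩
  rw [hσ, nb_nb g hu]

theorem St_mem {p : E} {τ σ : g.Lab} (h : g.St p τ σ) : p ∈ g.K σ := by
  obtain ⟨u, hu, hc, hσ⟩ := h
  exact (St_fc g hu hc hσ).1

theorem R_refl {p : E} {τ : g.Lab} (h : p ∈ g.K τ) : g.R p τ τ := ⟨h, Relation.ReflTransGen.refl⟩

theorem R_mem {p : E} {τ σ : g.Lab} (h : g.R p τ σ) : p ∈ g.K σ := by
  rcases h.2.cases_tail with h' | ⟨υ, -, h'⟩
  · rw [h']
    exact h.1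
  · exact St_mem g h'

theorem R_symm {p : E} {τ σ : g.Lab} (h : g.R p τ σ) : g.R p σ τ := by
  refine ⟨R_mem g h, ?_⟩
  have h2 := h.2
  induction h2 with
  | refl => exact Relation.ReflTransGen.refl
  | tail h1 h2 ih => exact (Relation.ReflTransGen.single (St_symm g h2)).trans (ih ⟨h.1, h1⟩)

theorem R_trans {p : E} {τ σ υ : g.Lab} (h : g.R p τ σ) (h' : g.R p σ υ) : g.R p τ υ :=
  ⟨h.1, h.2.trans h'.2⟩

theorem R_step {p : E} {τ σ υ : g.Lab} (h : g.R p τ σ) (h' : g.St p σ υ) : g.R p τ υ :=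
  ⟨h.1, h.2.tail h'⟩

theorem lab_countable : Countable g.Lab := by
  have hf : ∀ τ : ℝ × E, g.Orb τ → ∃ l : List {u : E // u ∈ P.N},
      l.foldr (fun u σ => g.nb u.1 σ) ((1, 0) : ℝ × E) = τ := by
    intro τ h
    induction h with
    | base => exact ⟨[], rfl⟩
    | @step τ u _ hu ih =>
      obtain ⟨l, hl⟩ := ih
      exact ⟨⟨u, hu⟩ :: l, by rw [List.foldr_cons, hl]⟩
  have : Finite {u : E // u ∈ P.N} := P.N.finite_toSet
  have hc : (Set.range fun l : List {u : E // u ∈ P.N} =>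
      l.foldr (fun u σ => g.nb u.1 σ) ((1, 0) : ℝ × E)).Countable := Set.countable_range _
  have hs : {τ : ℝ × E | g.Orb τ} ⊆ Set.range fun l : List {u : E // u ∈ P.N} =>
      l.foldr (fun u σ => g.nb u.1 σ) ((1, 0) : ℝ × E) := by
    intro τ hτ
    exact hf τ hτ
  exact (hc.mono hs).to_subtype

end Pool.FF24
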