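import Pool.Agent.FF24.Basic
import Pool.Agent.FF85.BadCov
import Pool.Agent.FF38.Act3

set_option autoImplicit false

/-!
# FF24/Act: the facets through a good point (STUB)

`act_pair`: two different active normals at a point are linearly independent (unit vectors; `v = -u` would give
`h u + h v = 0`, against the interior point).
`act_three`: let `x = y - z0`, `z0` interior: `<u, x> > 0` for the active `u`. If `u, v, w` are dependent, they lie in the plane
of two of them (`act_pair`), and one of them, say `w`, is `a u + b v` with `a, b ≥ 0`. Take `z` with active set `{w}`: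
`h w = <w, z> = a <u, z> + b <v, z> ≤ a h u + b h v = <w, y> = h w`, so `u` or `v` is active at `z`. Contradiction.
`Bad_sub`: the labels are countable; `{p | <u, crd τ p> = h u, <v, crd τ p> = h v, <w, crd τ p> = h w}` is an affine
subspace whose direction is orthogonal to three independent vectors.
-/

open Set Metric
open scoped RealInnerProductSpace

namespace Pool.FF24

variable {E : Type*} [NormedAddCommGroup E] [InnerProductSpace ℝ E] {P : HPoly E} (g : Glue P)

theorem act_pair {y u v : E} (hy : y ∈ P.body) (hu : u ∈ P.act y) (hv : v ∈ P.act y)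
    (huv : u ≠ v) : LinearIndependent ℝ ![u, v] :=
  FF38.li_pair hu hv huv

theorem act_three {y u v w : E} (hy : y ∈ P.body) (hu : u ∈ P.act y) (hv : v ∈ P.act y)
    (hw : w ∈ P.act y) (huv : u ≠ v) (huw : u ≠ w) (hvw : v ≠ w) :
    LinearIndependent ℝ ![u, v, w] :=
  FF38.li_three hu hv hw huv huw hvw

theorem good_act {p : E} (hp : p ∉ g.Bad) {τ : g.Lab} (hτ : p ∈ g.K τ) :
    P.act (crd τ.1 p) = ∅ ∨ (∃ u, P.act (crd τ.1 p) = {u}) ∨
      ∃ u v, u ≠ v ∧ P.act (crd τ.1 p) = {u, v} :=
  FF38.good_cases g hp τ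

theorem Bad_sub [FiniteDimensional ℝ E] : ∃ AA : Set (AffineSubspace ℝ E), AA.Countable ∧
    (∀ A ∈ AA, Module.finrank ℝ A.direction + 3 ≤ Module.finrank ℝ E) ∧
    g.Bad ⊆ ⋃ A ∈ AA, (A : Set E) := by
  obtain ⟨AA, h1, h2, h3⟩ := FF85.bad_cover g
  refine ⟨AA, h1, h2, fun z hz => ?_⟩
  obtain ⟨A, hA, hz'⟩ := h3 z hz
  exact mem_iUnion₂.2 ⟨A, hA, hz'⟩

end Pool.FF24
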