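import Pool.Agent.FF24.Defs

set_option autoImplicit false

/-!
# FF24/ActS: active normals at a point are independent
-/

open Set Metric
open scoped RealInnerProductSpace

namespace Pool.FF24

variable {E : Type*} [NormedAddCommGroup E] [InnerProductSpace ℝ E] {P : HPoly E}

/-- a nonnegative combination of two active normals which is a facet normal and active is one of them -/
theorem actS_comb (P : HPoly E) {y u v w : E} (hu : u ∈ P.act y) (hv : v ∈ P.act y)
    (hw : w ∈ P.act y) {a b : ℝ} (ha : 0 ≤ a) (hb : 0 ≤ b) (h : w = a • u + b • v) :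
    w = u ∨ w = v := by
  obtain ⟨z, hz1, hz2⟩ := P.real w hw.1
  have h0 : ⟪w, z⟫ = P.h w := (hz2 w hw.1).2 rfl
  by_contra hc
  push Not at hc
  have h1 : ⟪u, z⟫ < P.h u := lt_of_le_of_ne (hz1 u hu.1) fun e => hc.1 ((hz2 u hu.1).1 e).symm
  have h2 : ⟪v, z⟫ < P.h v := lt_of_le_of_ne (hz1 v hv.1) fun e => hc.2 ((hz2 v hv.1).1 e).symm
  have h3 : ⟪w, z⟫ = a * ⟪u, z⟫ + b * ⟪v, z⟫ := by
    rw [h, inner_add_left, real_inner_smul_left, real_inner_smul_left]
  have h4 : ⟪w, y⟫ = a * ⟪u, y⟫ + b * ⟪v, y⟫ := by
    rw [h, inner_add_left, real_inner_smul_left, real_inner_smul_left]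
  rw [h0] at h3
  rw [hw.2, hu.2, hv.2] at h4
  have h5 : a * (P.h u - ⟪u, z⟫) + b * (P.h v - ⟪v, z⟫) = 0 := by linarith
  have h6 : 0 ≤ a * (P.h u - ⟪u, z⟫) := mul_nonneg ha (by linarith)
  have h7 : 0 ≤ b * (P.h v - ⟪v, z⟫) := mul_nonneg hb (by linarith)
  have h8 : a = 0 := by
    have : a * (P.h u - ⟪u, z⟫) = 0 := by linarith
    rcases mul_eq_zero.1 this with e | e
    · exact e
    · linarith
  have h9 : b = 0 := by
    have : b * (P.h v - ⟪v, z⟫) = 0 := by linarith
    rcases mul_eq_zero.1 this with e | e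
    · exact e
    · linarith
  have h10 : ‖w‖ = 1 := P.unit w hw.1
  rw [h, h8, h9] at h10
  simp at h10

/-- a direction on which all active normals are negative -/
theorem actS_int (P : HPoly E) (y : E) : ∃ x : E, ∀ u ∈ P.act y, ⟪u, x⟫ < 0 := by
  obtain ⟨z, hz⟩ := P.int
  refine ⟨z - y, fun u hu => ?_⟩
  rw [inner_sub_right, hu.2]
  linarith [hz u hu.1]

theorem actS_pair (P : HPoly E) {y u v : E} (hu : u ∈ P.act y) (hv : v ∈ P.act y)
    (huv : u ≠ v) : LinearIndependent ℝ ![u, v] := by
  rw [LinearIndependent.pair_iff]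
  intro s t hst
  by_contra hc
  obtain ⟨x, hx⟩ := actS_int P y
  have hun : ‖u‖ = 1 := P.unit u hu.1
  have hvn : ‖v‖ = 1 := P.unit v hv.1
  -- `v = r u`
  have key : ∀ a b : E, a ∈ P.act y → b ∈ P.act y → a ≠ b → ∀ r : ℝ, b = r • a → False := by
    intro a b ha hb hab r hr
    have h1 : ‖b‖ = |r| * ‖a‖ := by rw [hr, norm_smul, Real.norm_eq_abs]
    rw [P.unit a ha.1, P.unit b hb.1, mul_one] at h1
    have hxa := hx a ha
    have hxb := hx b hb
    rw [hr, real_inner_smul_left] at hxb
    have hr0 : 0 < r := by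
      by_contra hneg
      push Not at hneg
      nlinarith
    rw [abs_of_pos hr0] at h1
    rw [← h1, one_smul] at hr
    exact hab hr.symm
  by_cases ht : t = 0
  · have hs : s ≠ 0 := fun e => hc ⟨e, ht⟩
    rw [ht, zero_smul, add_zero] at hst
    rcases smul_eq_zero.1 hst with e | e
    · exact hs e
    · rw [e] at hun
      simp at hun
  · refine key u v hu hv huv (-(s / t)) ?_
    have : t • v = -(s • u) := by
      rw [eq_neg_iff_add_eq_zero, add_comm]
      exact hst
    calc v = t⁻¹ • (t • v) := by rw [smul_smul, inv_mul_cancel₀ ht, one_smul]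
      _ = (-(s / t)) • u := by
        rw [this, smul_neg, smul_smul, neg_smul]
        congr 2
        field_simp

theorem actS_three (P : HPoly E) {y u v w : E} (hu : u ∈ P.act y) (hv : v ∈ P.act y)
    (hw : w ∈ P.act y) (huv : u ≠ v) (huw : u ≠ w) (hvw : v ≠ w) :
    LinearIndependent ℝ ![u, v, w] := by
  obtain ⟨x, hx⟩ := actS_int P y
  have hxu := hx u hu
  have hxv := hx v hv
  have hxw := hx w hw
  -- one of three with a relation `c = a p + b q`
  have key : ∀ p q c : E, p ∈ P.act y → q ∈ P.act y → c ∈ P.act y → p ≠ q → p ≠ c → q ≠ c →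
      ∀ a b : ℝ, c = a • p + b • q → False := by
    intro p q c hp hq hc hpq hpc hqc a b h
    have hxp := hx p hp
    have hxq := hx q hq
    have hxc := hx c hc
    have e1 : ⟪c, x⟫ = a * ⟪p, x⟫ + b * ⟪q, x⟫ := by
      rw [h, inner_add_left, real_inner_smul_left, real_inner_smul_left]
    rcases le_or_gt 0 a with ha | ha <;> rcases le_or_gt 0 b with hb | hb
    · rcases actS_comb P hp hq hc ha hb h with e | e
      · exact hpc e.symm
      · exact hqc e.symm
    · -- `a ≥ 0 > b`; `a > 0`; `p = (1/a) c + (-b/a) q`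
      have ha' : 0 < a := by
        rcases ha.lt_or_eq with e | e
        · exact e
        · exfalso
          rw [← e] at e1
          nlinarith
      have h2 : p = (1 / a) • c + (-b / a) • q := by
        rw [h, smul_add, smul_smul, smul_smul, one_div, inv_mul_cancel₀ ha'.ne', one_smul,
          add_assoc, ← add_smul]
        have : a⁻¹ * b + -b / a = 0 := by field_simp; ring
        rw [this, zero_smul, add_zero]
      rcases actS_comb P hc hq hp (by positivity) (div_nonneg (by linarith) ha'.le) h2 with e | e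
      · exact hpc e
      · exact hpq e
    · have hb' : 0 < b := by
        rcases hb.lt_or_eq with e | e
        · exact e
        · exfalso
          rw [← e] at e1
          nlinarith
      have h2 : q = (1 / b) • c + (-a / b) • p := by
        rw [h, smul_add, smul_smul, smul_smul, one_div, inv_mul_cancel₀ hb'.ne', one_smul,
          add_comm (((b⁻¹ * a) • p)) q, add_assoc, ← add_smul]
        have : b⁻¹ * a + -a / b = 0 := by field_simp; ring
        rw [this, zero_smul, add_zero]
      rcases actS_comb P hc hp hq (by positivity) (div_nonneg (by linarith) hb'.le) h2 with e | e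
      · exact hqc e
      · exact hpq e.symm
    · nlinarith
  rw [Fintype.linearIndependent_iff]
  intro c hc
  rw [Fin.sum_univ_three] at hc
  have hc' : c 0 • u + c 1 • v + c 2 • w = 0 := hc
  have sol : ∀ (r a b : ℝ) (p q e : E), r ≠ 0 → r • e + (a • p + b • q) = 0 →
      e = (-a / r) • p + (-b / r) • q := by
    intro r a b p q e hr h
    have h1 : r • e = -(a • p + b • q) := eq_neg_of_add_eq_zero_left h
    calc e = r⁻¹ • (r • e) := by rw [smul_smul, inv_mul_cancel₀ hr, one_smul]
      _ = (-a / r) • p + (-b / r) • q := by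
        rw [h1, smul_neg, smul_add, smul_smul, smul_smul, neg_div, neg_div, neg_smul, neg_smul,
          ← neg_add, div_eq_inv_mul, div_eq_inv_mul]
  have h2 : c 2 = 0 := by
    by_contra h
    exact key u v w hu hv hw huv huw hvw _ _ (sol (c 2) (c 0) (c 1) u v w h
      (by rw [← hc']; abel))
  have h1 : c 1 = 0 := by
    by_contra h
    exact key u w v hu hw hv huw huv hvw.symm _ _ (sol (c 1) (c 0) (c 2) u w v h
      (by rw [← hc']; abel))
  have h0 : c 0 = 0 := by
    by_contra h
    exact key v w u hv hw hu hvw huv.symm huw.symm _ _ (sol (c 0) (c 1) (c 2) v w u h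
      (by rw [← hc']; abel))
  intro i
  fin_cases i
  · exact h0
  · exact h1
  · exact h2

end Pool.FF24
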