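import Pool.Agent.FF24.Face
import Pool.Agent.FF24.Act
import Pool.Agent.FF38.ActTwo

set_option autoImplicit false

/-!
# FF24/ActTwo: one step around a ridge

`G = mf y` (the ridge), `act y = {u, v}`. `mf (j v y) = j v G`. Every `w'` active at `j v y` is orthogonal
to the directions of `j v G = ±` directions of `G = {u, v}^⊥` (near `y` the set `mf y` is `y + {u, v}^⊥`), so it is in the
plane of `u, v`; by `act_three` there are at most two active normals at `j v y`, and not only `star v` (then `mf` would
be a whole facet). Orientation: with `e = -1` (`v ∈ I`) or `e = 1`, near `j v y` the facet `star v` is the set of the points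
`j v y + e x`, `<v, x> = 0`, `<u, x> ≤ 0`, and it is also `{<w, .> ≤ h w}` in the hyperplane: so for `<v, x> = 0` the numbers
`<u, x>` and `e <w, x>` have the same sign; hence `w = e (a u + b v)` with `a > 0`.
-/

open Set Metric
open scoped RealInnerProductSpace

namespace Pool.FF24

variable {E : Type*} [NormedAddCommGroup E] [InnerProductSpace ℝ E] {P : HPoly E} (g : Glue P)

theorem act_two {u v y : E} (hy : y ∈ P.body) (huv : u ≠ v) (h : P.act y = {u, v}) :
    ∃ (w : E) (a b : ℝ), P.act (g.j v y) = {g.star v, w} ∧ g.star v ≠ w ∧ 0 < a ∧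
      ((v ∈ g.I ∧ w = -(a • u + b • v)) ∨ (v ∉ g.I ∧ w = a • u + b • v)) :=
  FF38.act_two g hy huv h

end Pool.FF24
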