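import Pool.Agent.FF79.Main

set_option autoImplicit false

/-!
# FF24/Amb: facet-to-facet tilings without the coherence condition

`coh`: if no facet of `P` is both centrally symmetric and a translate of the opposite facet, then every facet-to-facet
tiling by translates and negatives of `P` is coherent, with `I` = the centrally symmetric facets.
`csym`: if `P` is centrally symmetric, then every facet-to-facet tiling can be relabelled by translations only.
-/

open Set Metric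
open scoped RealInnerProductSpace

namespace Pool.FF24

open Pool.FF79

variable {E : Type*} [NormedAddCommGroup E] [InnerProductSpace ℝ E]

/-- a facet-to-facet tiling by translates and negatives, no condition on the signs of the neighbours -/
structure IsFF (P : HPoly E) (T : Set (ℝ × E)) : Prop where
  sign : ∀ τ ∈ T, τ.1 = 1 ∨ τ.1 = -1
  cover : ∀ x : E, ∃ τ ∈ T, x ∈ X τ '' P.body
  disj : ∀ τ ∈ T, ∀ σ ∈ T, τ ≠ σ →
    Disjoint (interior (X τ '' P.body)) (interior (X σ '' P.body))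
  facet : ∀ τ ∈ T, ∀ u ∈ P.N, ∃ σ ∈ T, σ ≠ τ ∧ ∃ v ∈ P.N, X σ '' P.fc v = X τ '' P.fc u

theorem IsFF.of_tiling {P : HPoly E} {I : Set E} {T : Set (ℝ × E)} (h : IsTiling P I T) :
    IsFF P T where
  sign := h.sign
  cover := h.cover
  disj := h.disj
  facet := fun τ hτ u hu => by
    obtain ⟨σ, h1, h2, -, h3⟩ := h.facet τ hτ u hu
    exact ⟨σ, h1, h2, h3⟩

/-- the normals of the centrally symmetric facets -/
def CS (P : HPoly E) : Set E := {u | u ∈ P.N ∧ ∃ c, (fun z => c - z) '' P.fc u = P.fc u}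

/-- no facet is both centrally symmetric and a translate of the opposite facet -/
def NoAmb (P : HPoly E) : Prop :=
  ∀ u ∈ CS P, -u ∈ P.N → ∀ t, (fun z => z + t) '' P.fc u ≠ P.fc (-u)

theorem amb_opp {P : HPoly E} {τ σ : ℝ × E} (hτ : τ.1 = 1 ∨ τ.1 = -1) (hs : σ.1 = -τ.1) {u : E}
    (h : X σ '' P.fc u = X τ '' P.fc u) : ∃ c, (fun z => c - z) '' P.fc u = P.fc u := by
  refine ⟨τ.1 • (σ.2 - τ.2), ?_⟩
  have hsq : τ.1 * τ.1 = 1 := by rcases hτ with e | e <;> rw [e] <;> norm_num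
  ext z
  constructor
  · rintro ⟨y, hy, rfl⟩
    have h1 : X σ y ∈ X τ '' P.fc u := h ▸ ⟨y, hy, rfl⟩
    obtain ⟨y', hy', h2⟩ := h1
    have h3 : y' = τ.1 • (σ.2 - τ.2) - y := by
      have h4 : τ.1 • y' + τ.2 = σ.1 • y + σ.2 := h2
      have h5 : τ.1 • y' = -(τ.1 • y) + (σ.2 - τ.2) := by
        rw [hs, neg_smul] at h4
        rw [← add_sub_assoc, ← h4]
        abel
      calc y' = τ.1 • (τ.1 • y') := by rw [smul_smul, hsq, one_smul]
        _ = _ := by
          rw [h5, smul_add, smul_neg, smul_smul, hsq, one_smul]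
          abel
    simp only
    rw [← h3]
    exact hy'
  · intro hz
    have h1 : X τ z ∈ X σ '' P.fc u := h ▸ ⟨z, hz, rfl⟩
    obtain ⟨y, hy, h2⟩ := h1
    refine ⟨y, hy, ?_⟩
    have h4 : σ.1 • y + σ.2 = τ.1 • z + τ.2 := h2
    have h5 : τ.1 • z = -(τ.1 • y) + (σ.2 - τ.2) := by
      rw [hs, neg_smul] at h4
      rw [← add_sub_assoc, h4]
      abel
    simp only
    calc τ.1 • (σ.2 - τ.2) - y = τ.1 • (-(τ.1 • y) + (σ.2 - τ.2)) := by
          rw [smul_add, smul_neg, smul_smul, hsq, one_smul]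
          abel
      _ = τ.1 • (τ.1 • z) := by rw [h5]
      _ = z := by rw [smul_smul, hsq, one_smul]

theorem amb_same {P : HPoly E} {τ σ : ℝ × E} (hτ : τ.1 = 1 ∨ τ.1 = -1) (hs : σ.1 = τ.1) {u v : E}
    (h : X σ '' P.fc v = X τ '' P.fc u) : ∃ t, (fun z => z + t) '' P.fc u = P.fc v := by
  refine ⟨τ.1 • (τ.2 - σ.2), ?_⟩
  have hsq : τ.1 * τ.1 = 1 := by rcases hτ with e | e <;> rw [e] <;> norm_num
  have key : ∀ y z : E, σ.1 • y + σ.2 = τ.1 • z + τ.2 → y = z + τ.1 • (τ.2 - σ.2) := by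
    intro y z h2
    rw [hs] at h2
    have h5 : τ.1 • y = τ.1 • z + (τ.2 - σ.2) := by
      rw [← add_sub_assoc, ← h2]
      abel
    calc y = τ.1 • (τ.1 • y) := by rw [smul_smul, hsq, one_smul]
      _ = _ := by rw [h5, smul_add, smul_smul, hsq, one_smul]
  ext w
  constructor
  · rintro ⟨z, hz, rfl⟩
    have h1 : X τ z ∈ X σ '' P.fc v := h ▸ ⟨z, hz, rfl⟩
    obtain ⟨y, hy, h2⟩ := h1
    simp only
    rw [← key y z h2]
    exact hy
  · intro hw
    have h1 : X σ w ∈ X τ '' P.fc u := h ▸ ⟨w, hw, rfl⟩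
    obtain ⟨z, hz, h2⟩ := h1
    exact ⟨z, hz, (key w z h2.symm).symm⟩

/-- EVERY FACET-TO-FACET TILING IS COHERENT if there is no ambiguous facet -/
theorem coh {P : HPoly E} (hP : NoAmb P) {T : Set (ℝ × E)} (h : IsFF P T) :
    IsTiling P (CS P) T where
  sign := h.sign
  cover := h.cover
  disj := h.disj
  facet := fun τ hτ u hu => by
    obtain ⟨σ, h1, h2, v, hv, h3⟩ := h.facet τ hτ u hu
    have hn := facet_normal P (h.sign τ hτ) (h.sign σ h1) hu hv (h.disj τ hτ σ h1 h2.symm) h3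
    have hsq : τ.1 * τ.1 = 1 := by rcases h.sign τ hτ with e | e <;> rw [e] <;> norm_num
    refine ⟨σ, h1, h2, ?_, v, hv, h3⟩
    have hcase : σ.1 = -τ.1 ∨ σ.1 = τ.1 := by
      rcases h.sign τ hτ with e | e <;> rcases h.sign σ h1 with e' | e' <;> rw [e, e'] <;> norm_num
    rcases hcase with hs | hs
    · left
      have hvu : v = u := by
        rw [hs, neg_smul, neg_inj] at hn
        calc v = τ.1 • (τ.1 • v) := by rw [smul_smul, hsq, one_smul]
          _ = u := by rw [hn, smul_smul, hsq, one_smul]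
      subst hvu
      exact ⟨⟨hu, amb_opp (h.sign τ hτ) hs h3⟩, hs⟩
    · right
      have hvu : v = -u := by
        rw [hs] at hn
        calc v = τ.1 • (τ.1 • v) := by rw [smul_smul, hsq, one_smul]
          _ = -u := by rw [hn, smul_neg, smul_smul, hsq, one_smul]
      subst hvu
      refine ⟨fun hI => ?_, hs⟩
      obtain ⟨t, ht⟩ := amb_same (h.sign τ hτ) hs h3
      exact hP u hI hv t ht

theorem noamb_iff [FiniteDimensional ℝ E] {P : HPoly E} (hP : NoAmb P) :
    (∃ T, IsFF P T) ↔ ∃ g : Glue P, g.I = CS P ∧ g.Cyc := by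
  rw [← main P (CS P)]
  constructor
  · rintro ⟨T, hT⟩
    exact ⟨T, coh hP hT⟩
  · rintro ⟨T, hT⟩
    exact ⟨T, IsFF.of_tiling hT⟩

end Pool.FF24
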