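import Pool.Agent.FF79.Coh
import Pool.Agent.FF24.Basic

set_option autoImplicit false

/-!
# FF24/Csym: centrally symmetric polytopes

If `P` is centrally symmetric then the labels of a facet-to-facet tiling can be changed (same tiles) such that all
signs are `1`, and the new tiling is coherent with `I = ∅`.
-/

open Set Metric
open scoped RealInnerProductSpace

namespace Pool.FF24

open Pool.FF79

variable {E : Type*} [NormedAddCommGroup E] [InnerProductSpace ℝ E]

/-- near the point `z` of the facet `u` which lies on no other facet, the body is the half-space of `u` -/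
theorem cs_near (P : HPoly E) {u z : E} (hz : z ∈ P.body) (hz2 : ∀ v ∈ P.N, (⟪v, z⟫ = P.h v ↔ v = u)) :
    ∃ ε : ℝ, 0 < ε ∧ ∀ w : E, ‖w‖ ≤ ε → ⟪u, w⟫ ≤ 0 → z + w ∈ P.body := by
  classical
  -- the finite set of the other facets
  have key : ∀ s : Finset E, s ⊆ P.N → ∃ ε : ℝ, 0 < ε ∧ ∀ v ∈ s, v ≠ u → ⟪v, z⟫ + ε ≤ P.h v := by
    intro s
    induction s using Finset.induction_on with
    | empty => intro _; exact ⟨1, one_pos, by simp⟩
    | insert v s hv ih =>
      intro hs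
      obtain ⟨ε, hε, h⟩ := ih (fun x hx => hs (Finset.mem_insert_of_mem hx))
      by_cases hvu : v = u
      · refine ⟨ε, hε, fun w hw hne => ?_⟩
        rcases Finset.mem_insert.1 hw with rfl | hw
        · exact absurd hvu hne
        · exact h w hw hne
      · have hvN : v ∈ P.N := hs (Finset.mem_insert_self v s)
        have hlt : ⟪v, z⟫ < P.h v :=
          lt_of_le_of_ne (hz v hvN) (fun h => hvu ((hz2 v hvN).1 h))
        refine ⟨min ε (P.h v - ⟪v, z⟫), lt_min hε (by linarith), fun w hw hne => ?_⟩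
        rcases Finset.mem_insert.1 hw with rfl | hw
        · linarith [min_le_right ε (P.h w - ⟪w, z⟫)]
        · linarith [min_le_left ε (P.h v - ⟪v, z⟫), h w hw hne]
  obtain ⟨ε, hε, h⟩ := key P.N (Finset.Subset.refl _)
  refine ⟨ε, hε, fun w hw hu v hv => ?_⟩
  rw [inner_add_right]
  by_cases hvu : v = u
  · subst hvu
    linarith [hz v hv]
  · have h1 : ⟪v, w⟫ ≤ ‖v‖ * ‖w‖ := real_inner_le_norm v w
    rw [P.unit v hv, one_mul] at h1
    linarith [h v hv hvu]

/-- some facet is active at a point from which one leaves the body by arbitrarily small steps -/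
theorem cs_act (P : HPoly E) {y u : E} (hy : y ∈ P.body)
    (h : ∀ ε : ℝ, 0 < ε → y - ε • u ∉ P.body) : ∃ v ∈ P.N, ⟪v, y⟫ = P.h v := by
  classical
  by_contra hcon
  push Not at hcon
  have key : ∀ s : Finset E, s ⊆ P.N → ∃ ε : ℝ, 0 < ε ∧ ∀ v ∈ s, ⟪v, y⟫ - ε * ⟪v, u⟫ ≤ P.h v := by
    intro s
    induction s using Finset.induction_on with
    | empty => intro _; exact ⟨1, one_pos, by simp⟩
    | insert v s hv ih =>
      intro hs
      obtain ⟨ε, hε, h⟩ := ih (fun x hx => hs (Finset.mem_insert_of_mem hx))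
      have hvN : v ∈ P.N := hs (Finset.mem_insert_self v s)
      have hlt : ⟪v, y⟫ < P.h v := lt_of_le_of_ne (hy v hvN) (hcon v hvN)
      set m : ℝ := min ε ((P.h v - ⟪v, y⟫) / (1 + |⟪v, u⟫|)) with hm
      have hm0 : 0 < m := lt_min hε (div_pos (by linarith) (by positivity))
      refine ⟨m, hm0, fun w hw => ?_⟩
      rcases Finset.mem_insert.1 hw with rfl | hw
      · have h1 : m ≤ (P.h w - ⟪w, y⟫) / (1 + |⟪w, u⟫|) := min_le_right _ _
        have h2 : m * (1 + |⟪w, u⟫|) ≤ P.h w - ⟪w, y⟫ := by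
          rwa [le_div_iff₀ (by positivity)] at h1
        have h3 : -⟪w, u⟫ ≤ |⟪w, u⟫| := neg_le_abs _
        nlinarith
      · have h1 : m ≤ ε := min_le_left _ _
        have h2 := h w hw
        have h3 := hy w (hs (Finset.mem_insert_of_mem hw))
        by_cases h4 : 0 ≤ ⟪w, u⟫
        · nlinarith
        · push Not at h4
          nlinarith
  obtain ⟨ε, hε, h1⟩ := key P.N (Finset.Subset.refl _)
  apply h ε hε
  intro v hv
  rw [inner_sub_right, inner_smul_right]
  exact h1 v hv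

section
variable (P : HPoly E) {c : E} (hc : ∀ z ∈ P.body, c - z ∈ P.body)
include hc

theorem cs_neg {u : E} (hu : u ∈ P.N) : -u ∈ P.N ∧ P.h (-u) = P.h u - ⟪u, c⟫ := by
  obtain ⟨z, hz1, hz2⟩ := P.real u hu
  have hzb : z ∈ P.body := hz1
  have huz : ⟪u, z⟫ = P.h u := (hz2 u hu).2 rfl
  have huu : ⟪u, u⟫ = 1 := by
    rw [real_inner_self_eq_norm_sq, P.unit u hu]
    norm_num
  have hyb : c - z ∈ P.body := hc z hzb
  obtain ⟨v, hv, hva⟩ := cs_act P (y := c - z) (u := u) hyb (by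
    intro ε hε hmem
    have h1 := hc _ hmem
    have h2 : c - (c - z - ε • u) = z + ε • u := by abel
    rw [h2] at h1
    have h3 := h1 u hu
    rw [inner_add_right, inner_smul_right, huu, huz] at h3
    linarith)
  obtain ⟨ε, hε, hnear⟩ := cs_near P hzb hz2
  -- small steps
  have hstep : ∀ w : E, 0 ≤ ⟪u, w⟫ → ⟪v, w⟫ ≤ 0 := by
    intro w hw
    by_cases hw0 : w = 0
    · simp [hw0]
    have hwn : 0 < ‖w‖ := norm_pos_iff.2 hw0
    set s : ℝ := ε / ‖w‖ with hs
    have hs0 : 0 < s := div_pos hε hwn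
    have h1 : z + (-(s • w)) ∈ P.body := by
      apply hnear
      · rw [norm_neg, norm_smul, Real.norm_eq_abs, abs_of_pos hs0, hs, div_mul_cancel₀ _ hwn.ne']
      · rw [inner_neg_right, inner_smul_right]
        nlinarith
    have h2 := hc _ h1
    have h3 : c - (z + -(s • w)) = (c - z) + s • w := by abel
    rw [h3] at h2
    have h4 := h2 v hv
    rw [inner_add_right, inner_smul_right, hva] at h4
    by_contra hcon
    push Not at hcon
    nlinarith
  have hvv : ⟪v, v⟫ = 1 := by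
    rw [real_inner_self_eq_norm_sq, P.unit v hv]
    norm_num
  have hw1 := hstep (v - ⟪u, v⟫ • u) (by
    rw [inner_sub_right, inner_smul_right, huu]; linarith)
  rw [inner_sub_right, inner_smul_right, hvv, real_inner_comm u v] at hw1
  -- ⟪u, v⟫ ^ 2 ≥ 1
  have habs : ⟪u, v⟫ = 1 ∨ ⟪u, v⟫ = -1 := by
    have h1 : |⟪u, v⟫| ≤ 1 := by
      have := abs_real_inner_le_norm u v
      rw [P.unit u hu, P.unit v hv] at this
      linarith
    have h2 := abs_le.1 h1
    have h3 : 1 ≤ ⟪u, v⟫ * ⟪u, v⟫ := by linarith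
    have h4 : (⟪u, v⟫ - 1) * (⟪u, v⟫ + 1) = 0 := by nlinarith
    rcases mul_eq_zero.1 h4 with h | h
    · left; linarith
    · right; linarith
  have hvu : v = -u := by
    rcases habs with h | h
    · exfalso
      have h1 := hstep u (by rw [huu]; norm_num)
      rw [real_inner_comm, h] at h1
      linarith
    · have h1 : ⟪v + u, v + u⟫ = 0 := by
        rw [inner_add_left, inner_add_right, inner_add_right, hvv, huu, real_inner_comm u v, h]
        norm_num
      exact eq_neg_of_add_eq_zero_left (inner_self_eq_zero.1 h1)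
  subst hvu
  refine ⟨hv, ?_⟩
  rw [← hva, inner_neg_left, inner_sub_right, huz]
  ring

theorem cs_fc {u z : E} (hu : u ∈ P.N) (hz : z ∈ P.fc u) : c - z ∈ P.fc (-u) := by
  refine ⟨hc z hz.1, ?_⟩
  rw [(cs_neg P hc hu).2, inner_neg_left, inner_sub_right, hz.2]
  ring

end

open Classical in
/-- the label with sign `1` of the same tile -/
noncomputable def pos (c : E) (τ : ℝ × E) : ℝ × E := (1, if τ.1 = 1 then τ.2 else τ.2 - c)

theorem X_pos_one {c : E} {τ : ℝ × E} (h : τ.1 = 1) (z : E) : X τ z = X (pos c τ) z := by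
  unfold X pos
  simp [h]

theorem X_pos_neg {c : E} {τ : ℝ × E} (h : τ.1 = -1) (z : E) : X τ z = X (pos c τ) (c - z) := by
  unfold X pos
  have : ¬ (-1 : ℝ) = 1 := by norm_num
  simp only [h, this, if_false, one_smul, neg_smul]
  abel

theorem pos_body (P : HPoly E) {c : E} (hc : ∀ z ∈ P.body, c - z ∈ P.body) {τ : ℝ × E}
    (h : τ.1 = 1 ∨ τ.1 = -1) : X τ '' P.body = X (pos c τ) '' P.body := by
  rcases h with h | h
  · exact image_congr fun z _ => X_pos_one h z
  · ext x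
    constructor
    · rintro ⟨z, hz, rfl⟩
      exact ⟨c - z, hc z hz, (X_pos_neg h z).symm⟩
    · rintro ⟨z, hz, rfl⟩
      refine ⟨c - z, hc z hz, ?_⟩
      rw [X_pos_neg (c := c) h, sub_sub_cancel]

theorem pos_fc (P : HPoly E) {c : E} (hc : ∀ z ∈ P.body, c - z ∈ P.body) {τ : ℝ × E}
    (h : τ.1 = 1 ∨ τ.1 = -1) {u : E} (hu : u ∈ P.N) :
    ∃ v ∈ P.N, X (pos c τ) '' P.fc u = X τ '' P.fc v := by
  rcases h with h | h
  · exact ⟨u, hu, (image_congr fun z _ => X_pos_one h z).symm⟩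
  · refine ⟨-u, (cs_neg P hc hu).1, ?_⟩
    ext x
    constructor
    · rintro ⟨z, hz, rfl⟩
      refine ⟨c - z, cs_fc P hc hu hz, ?_⟩
      rw [X_pos_neg (c := c) h, sub_sub_cancel]
    · rintro ⟨z, hz, rfl⟩
      have h1 := cs_fc P hc (cs_neg P hc hu).1 hz
      rw [neg_neg] at h1
      exact ⟨c - z, h1, (X_pos_neg h z).symm⟩

theorem pos_fc' (P : HPoly E) {c : E} (hc : ∀ z ∈ P.body, c - z ∈ P.body) {τ : ℝ × E}
    (h : τ.1 = 1 ∨ τ.1 = -1) {u : E} (hu : u ∈ P.N) :
    ∃ v ∈ P.N, X (pos c τ) '' P.fc v = X τ '' P.fc u := by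
  rcases h with h | h
  · exact ⟨u, hu, (image_congr fun z _ => X_pos_one h z).symm⟩
  · refine ⟨-u, (cs_neg P hc hu).1, ?_⟩
    obtain ⟨v, hv, h2⟩ := pos_fc P hc (Or.inr h : τ.1 = 1 ∨ τ.1 = -1) (cs_neg P hc hu).1
    ext x
    constructor
    · rintro ⟨z, hz, rfl⟩
      refine ⟨c - z, ?_, ?_⟩
      · have h1 := cs_fc P hc (cs_neg P hc hu).1 hz
        rwa [neg_neg] at h1
      · rw [X_pos_neg (c := c) h, sub_sub_cancel]
    · rintro ⟨z, hz, rfl⟩
      exact ⟨c - z, cs_fc P hc hu hz, (X_pos_neg h z).symm⟩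

/-- a tile has interior points -/
theorem int_tile (P : HPoly E) {τ : ℝ × E} (h : τ.1 = 1 ∨ τ.1 = -1) :
    (interior (X τ '' P.body)).Nonempty := by
  obtain ⟨z, hz⟩ := P.int
  have hX : Continuous (X τ) := by
    unfold X
    fun_prop
  have hcr : Continuous (crd τ) := by
    unfold crd
    fun_prop
  have hopen : IsOpen {z : E | ∀ u ∈ P.N, ⟪u, z⟫ < P.h u} := by
    have : {z : E | ∀ u ∈ P.N, ⟪u, z⟫ < P.h u} = ⋂ u ∈ P.N, {z : E | ⟪u, z⟫ < P.h u} := by
      ext z; simp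
    rw [this]
    apply isOpen_biInter_finset
    intro u _
    exact isOpen_lt (continuous_const.inner continuous_id) continuous_const
  refine ⟨X τ z, mem_interior.2 ⟨crd τ ⁻¹' {z : E | ∀ u ∈ P.N, ⟪u, z⟫ < P.h u}, ?_, hopen.preimage hcr, ?_⟩⟩
  · intro p hp
    refine ⟨crd τ p, fun u hu => (hp u hu).le, X_crd h p⟩
  · rw [mem_preimage, crd_X h]
    exact hz

/-- CENTRALLY SYMMETRIC POLYTOPES: all labels can be taken with sign `1` (same tiles), and then the tiling is coherent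
with `I = ∅`. -/
theorem csym (P : HPoly E) {c : E} (hc : ∀ z ∈ P.body, c - z ∈ P.body) {T : Set (ℝ × E)}
    (hT : IsF2F P T) : IsTiling P ∅ (pos c '' T) ∧
      (fun τ => X τ '' P.body) '' (pos c '' T) = (fun τ => X τ '' P.body) '' T := by
  refine ⟨⟨?_, ?_, ?_, ?_⟩, ?_⟩
  · rintro _ ⟨τ, hτ, rfl⟩
    exact Or.inl rfl
  · intro x
    obtain ⟨τ, hτ, hx⟩ := hT.cover x
    refine ⟨pos c τ, ⟨τ, hτ, rfl⟩, ?_⟩
    rwa [← pos_body P hc (hT.sign τ hτ)]
  · rintro _ ⟨τ, hτ, rfl⟩ _ ⟨σ, hσ, rfl⟩ hne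
    rw [← pos_body P hc (hT.sign τ hτ), ← pos_body P hc (hT.sign σ hσ)]
    exact hT.disj τ hτ σ hσ (fun h => hne (by rw [h]))
  · rintro _ ⟨τ, hτ, rfl⟩ u hu
    obtain ⟨v, hv, h1⟩ := pos_fc P hc (hT.sign τ hτ) hu
    obtain ⟨σ, hσ, hne, w, hw, h2⟩ := hT.facet τ hτ v hv
    obtain ⟨w', hw', h3⟩ := pos_fc' P hc (hT.sign σ hσ) hw
    refine ⟨pos c σ, ⟨σ, hσ, rfl⟩, ?_, Or.inr ⟨fun h => h, rfl⟩, w', hw', ?_⟩
    · intro h
      have h4 := hT.disj τ hτ σ hσ hne.symm
      rw [pos_body P hc (hT.sign τ hτ), pos_body P hc (hT.sign σ hσ), h] at h4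
      obtain ⟨x, hx⟩ := int_tile P (τ := pos c τ) (Or.inl rfl)
      exact Set.disjoint_left.1 h4 hx hx
    · rw [h3, h2, h1]
  · rw [image_image]
    exact image_congr fun τ hτ => (pos_body P hc (hT.sign τ hτ)).symm

end Pool.FF24
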