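import Pool.Agent.FF24.D3Face
import Pool.Agent.FF57.Edge
import Pool.Agent.FF57.Bcov

set_option autoImplicit false

/-!
# FF24/D3Dir: the edge directions which are not parallel to a varying facet (proof of FF57/Dir)
-/

open Set Metric
open scoped RealInnerProductSpace

namespace Pool.FF24.D3

open Pool.FF24 Pool.FF38 Pool.FF57

variable {E : Type*} [NormedAddCommGroup E] [InnerProductSpace ℝ E] {P : HPoly E}

/-! ### linear algebra -/

theorem li3 {A B C p q : E} (hA : A ≠ 0) (pA : ⟪p, A⟫ = 0) (pB : ⟪p, B⟫ = 0) (pC : ⟪p, C⟫ ≠ 0)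
    (qA : ⟪q, A⟫ = 0) (qB : ⟪q, B⟫ ≠ 0) : LinearIndependent ℝ ![A, B, C] := by
  rw [Fintype.linearIndependent_iff]
  intro g hg
  rw [Fin.sum_univ_three] at hg
  simp only [Matrix.cons_val_zero, Matrix.cons_val_one, Matrix.cons_val_two, Matrix.head_cons,
    Matrix.tail_cons] at hg
  have h2 : g 2 = 0 := by
    have h := congrArg (fun z => ⟪p, z⟫) hg
    simp only [inner_add_right, real_inner_smul_right, inner_zero_right, pA, pB, mul_zero,
      zero_add] at h
    exact (mul_eq_zero.1 h).resolve_right pC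
  rw [h2, zero_smul, add_zero] at hg
  have h1 : g 1 = 0 := by
    have h := congrArg (fun z => ⟪q, z⟫) hg
    simp only [inner_add_right, real_inner_smul_right, inner_zero_right, qA, mul_zero,
      zero_add] at h
    exact (mul_eq_zero.1 h).resolve_right qB
  rw [h1, zero_smul, add_zero] at hg
  have h0 : g 0 = 0 := (smul_eq_zero.1 hg).resolve_right hA
  intro i
  fin_cases i
  · exact h0
  · exact h1
  · exact h2

theorem li_perm {a b c : E} (h : LinearIndependent ℝ ![a, b, c]) :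
    LinearIndependent ℝ ![b, a, c] ∧ LinearIndependent ℝ ![a, c, b] := by
  rw [Fintype.linearIndependent_iff] at h
  constructor
  · rw [Fintype.linearIndependent_iff]
    intro g hg
    rw [Fin.sum_univ_three] at hg
    simp only [Matrix.cons_val_zero, Matrix.cons_val_one, Matrix.cons_val_two, Matrix.head_cons,
      Matrix.tail_cons] at hg
    have h1 := h ![g 1, g 0, g 2] (by
      rw [Fin.sum_univ_three]
      simp only [Matrix.cons_val_zero, Matrix.cons_val_one, Matrix.cons_val_two, Matrix.head_cons,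
        Matrix.tail_cons]
      rw [← hg]
      abel)
    intro i
    fin_cases i
    · exact h1 1
    · exact h1 0
    · exact h1 2
  · rw [Fintype.linearIndependent_iff]
    intro g hg
    rw [Fin.sum_univ_three] at hg
    simp only [Matrix.cons_val_zero, Matrix.cons_val_one, Matrix.cons_val_two, Matrix.head_cons,
      Matrix.tail_cons] at hg
    have h1 := h ![g 0, g 2, g 1] (by
      rw [Fin.sum_univ_three]
      simp only [Matrix.cons_val_zero, Matrix.cons_val_one, Matrix.cons_val_two, Matrix.head_cons,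
        Matrix.tail_cons]
      rw [← hg]
      abel)
    intro i
    fin_cases i
    · exact h1 0
    · exact h1 2
    · exact h1 1

/-- a vector orthogonal to two independent vectors of a plane is orthogonal to the plane -/
theorem perp_plane {a x s t C : E} (hax : LinearIndependent ℝ ![a, x])
    (hs : s ∈ Submodule.span ℝ ({a, x} : Set E)) (ht : t ∈ Submodule.span ℝ ({a, x} : Set E))
    (hst : LinearIndependent ℝ ![s, t]) (h1 : ⟪s, C⟫ = 0) (h2 : ⟪t, C⟫ = 0) :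
    ⟪a, C⟫ = 0 ∧ ⟪x, C⟫ = 0 := by
  have hle : Submodule.span ℝ ({s, t} : Set E) ≤ Submodule.span ℝ ({a, x} : Set E) := by
    rw [Submodule.span_le]
    rintro z (rfl | rfl)
    · exact hs
    · exact ht
  have : FiniteDimensional ℝ (Submodule.span ℝ ({a, x} : Set E)) :=
    FiniteDimensional.span_of_finite ℝ (Set.toFinite _)
  have heq := Submodule.eq_of_le_of_finrank_eq hle (by rw [finrank_pair hst, finrank_pair hax])
  have key : ∀ z ∈ Submodule.span ℝ ({a, x} : Set E), ⟪z, C⟫ = 0 := by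
    intro z hz
    rw [← heq] at hz
    obtain ⟨α, β, rfl⟩ := Submodule.mem_span_pair.1 hz
    rw [inner_add_left, real_inner_smul_left, real_inner_smul_left, h1, h2]
    ring
  exact ⟨key a (Submodule.subset_span (by simp)), key x (Submodule.subset_span (by simp))⟩

/-! ### one belt -/

/-- the minimal face of a ridge point contains points in the direction of the ridge -/
theorem mf_dir {y u v h : E} (hy : y ∈ P.body) (hact : P.act y = {u, v}) (hu : ⟪u, h⟫ = 0)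
    (hv : ⟪v, h⟫ = 0) : ∃ s : ℝ, 0 < s ∧ y + s • h ∈ P.mf y := by
  obtain ⟨s, hs, hm⟩ := tangent (P := P) (y := y) (x := h) hy (by
    rw [hact]
    rintro z (rfl | hz)
    · exact hu.le
    · rw [mem_singleton_iff.1 hz]; exact hv.le)
  refine ⟨s, hs, ?_⟩
  rw [mf_eq hy]
  refine ⟨hm, ?_⟩
  intro z hz
  refine ⟨hz.1, ?_⟩
  have hz' : z = u ∨ z = v := by
    have : z ∈ ({u, v} : Set E) := by rw [← hact]; exact hz
    simpa using this
  rw [inner_add_right, real_inner_smul_right, hz.2]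
  rcases hz' with rfl | rfl
  · rw [hu]; ring
  · rw [hv]; ring

theorem dir1 [FiniteDimensional ℝ E] (hd : Module.finrank ℝ E = 3) (hcov : Cover P)
    {a y0 x s t : E} (hy0 : y0 ∈ P.body) (hax : a ≠ x) (hact : P.act y0 = {a, x})
    (hb : ∀ w ∈ Submodule.span ℝ {a, x}, w ≠ 0 → (∀ r : ℝ, w ≠ r • a) → (∀ r : ℝ, w ≠ r • s) →
      (∀ r : ℝ, w ≠ r • t) →
        ∃ u v : E, Fl P y0 u v ∧ Fl P y0 (-u) (-v) ∧ ∃ α β : ℝ, 0 < α ∧ 0 < β ∧ w = α • u + β • v)
    {y u v h : E} (hy : y ∈ P.body) (huv : u ≠ v) (hact' : P.act y = {u, v}) (hu : ⟪u, h⟫ = 0)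
    (hv : ⟪v, h⟫ = 0) (hah : ⟪a, h⟫ ≠ 0) : ⟪s, h⟫ = 0 ∨ ⟪t, h⟫ = 0 := by
  have h0 : h ≠ 0 := by
    rintro rfl
    exact hah (inner_zero_right _)
  have hu' : u ∈ P.act y := by rw [hact']; simp
  have hv' : v ∈ P.act y := by rw [hact']; simp
  have ha' : a ∈ P.act y0 := by rw [hact]; simp
  have hx' : x ∈ P.act y0 := by rw [hact]; simp
  have hliuv := act_pair hy hu' hv' huv
  have hliax := act_pair hy0 ha' hx' hax
  obtain ⟨g, hg0, hga, hgx⟩ := perp2 hd a x
  obtain ⟨ν, hν0, hνg, hνh⟩ := perp2 hd g h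
  rw [real_inner_comm] at hνg hνh
  have hν1 : ν ∈ Submodule.span ℝ ({a, x} : Set E) := span_of_perp hd hliax hg0 hga hgx hνg
  have hν2 : ν ∈ Submodule.span ℝ ({u, v} : Set E) := span_of_perp hd hliuv h0 hu hv hνh
  by_contra hcon
  push Not at hcon
  obtain ⟨hs, ht⟩ := hcon
  have hne : ∀ q : E, ⟪q, h⟫ ≠ 0 → ∀ r : ℝ, ν ≠ r • q := by
    intro q hq r hr
    rw [hr, real_inner_smul_left] at hνh
    rcases mul_eq_zero.1 hνh with h1 | h1
    · exact hν0 (by rw [hr, h1, zero_smul])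
    · exact hq h1
  obtain ⟨u', v', hf1, hf2, α, β, hα, hβ, hνe⟩ := hb ν hν1 hν0 (hne a hah) (hne s hs) (hne t ht)
  -- the two faces
  have hface : ∀ u' v' : E, Fl P y0 u' v' → ∀ w : E, w = α • u' + β • v' →
      ∀ y3 ∈ P.body, y3 ∈ Fw P w → ∀ u3 v3 : E, P.act y3 = {u3, v3} → ⟪u3, h⟫ = 0 → ⟪v3, h⟫ = 0 →
        False := by
    intro u' v' hf w hw y3 hy3 hy3w u3 v3 hact3 hu3 hv3
    obtain ⟨hgu, hgv⟩ := fl_perp hy0 hact hga hgx hf
    obtain ⟨hne', y', hy', hacty', -⟩ := hf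
    have hFw : Fw P w = P.mf y' := by rw [hw]; exact fce_comb hy' hacty' hα hβ
    obtain ⟨δ, hδ, hδm⟩ := mf_dir hy3 hact3 hu3 hv3
    have h1 : y3 + δ • h ∈ P.mf y' := by
      rw [← hFw]
      exact mf_sub_fce hy3w hδm
    have h2 : y3 ∈ P.mf y' := by rw [← hFw]; exact hy3w
    rw [mf_eq hy'] at h1 h2
    have hu'' : u' ∈ P.act y' := by rw [hacty']; simp
    have hv'' : v' ∈ P.act y' := by rw [hacty']; simp
    have hdiff : ∀ q ∈ P.act y', ⟪q, h⟫ = 0 := by
      intro q hq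
      have h4 := (h1.2 hq).2
      have h5 := (h2.2 hq).2
      rw [inner_add_right, real_inner_smul_right, h5] at h4
      have h6 : δ * ⟪q, h⟫ = 0 := by linarith
      exact (mul_eq_zero.1 h6).resolve_left hδ.ne'
    obtain ⟨r, hr⟩ := par_of_perp hd (act_pair hy' hu'' hv'' hne') hg0 hgu hgv (hdiff _ hu'')
      (hdiff _ hv'')
    apply hah
    rw [hr, real_inner_smul_right, hga, mul_zero]
  obtain ⟨y3, hy3, u3, v3, hne3, hact3, hspan3, -, hy3w⟩ := hcov y hy u v huv hact' ν hν2 hν0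
  have hperp : ∀ z ∈ Submodule.span ℝ ({u, v} : Set E), ⟪z, h⟫ = 0 := by
    intro z hz
    obtain ⟨p, q, rfl⟩ := Submodule.mem_span_pair.1 hz
    rw [inner_add_left, real_inner_smul_left, real_inner_smul_left, hu, hv]
    ring
  have hu3 : ⟪u3, h⟫ = 0 := hperp u3 (by rw [← hspan3]; exact Submodule.subset_span (by simp))
  have hv3 : ⟪v3, h⟫ = 0 := hperp v3 (by rw [← hspan3]; exact Submodule.subset_span (by simp))
  rcases hy3w with h1 | h1
  · exact hface u' v' hf1 ν hνe y3 hy3 h1 u3 v3 hact3 hu3 hv3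
  · refine hface (-u') (-v') hf2 (-ν) ?_ y3 hy3 h1 u3 v3 hact3 hu3 hv3
    rw [hνe]
    simp only [smul_neg]
    abel

/-! ### the four directions -/

theorem dirs [FiniteDimensional ℝ E] (hd : Module.finrank ℝ E = 3) {a : E} (D : Dat P a) :
    ∃ H : Fin 4 → E, (∀ i j k, i ≠ j → i ≠ k → j ≠ k → LinearIndependent ℝ ![H i, H j, H k]) ∧
      ∀ y ∈ P.body, ∀ u v : E, u ≠ v → P.act y = {u, v} → ∀ h : E, ⟪u, h⟫ = 0 → ⟪v, h⟫ = 0 →
        ⟪a, h⟫ ≠ 0 → ∃ i, ∃ r : ℝ, r ≠ 0 ∧ h = r • H i := by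
  obtain ⟨y1, hy1, y2, hy2, x1, x2, hact1, hact2, hli⟩ := two_edges hd D.mem
  have hpair : LinearIndependent ℝ ![a, x1] ∧ LinearIndependent ℝ ![a, x2] := by
    have hli' := hli
    rw [Fintype.linearIndependent_iff] at hli'
    constructor
    · rw [LinearIndependent.pair_iff]
      intro p q hpq
      have h1 := hli' ![p, q, 0] (by
        rw [Fin.sum_univ_three]
        simp only [Matrix.cons_val_zero, Matrix.cons_val_one, Matrix.cons_val_two,
          Matrix.head_cons, Matrix.tail_cons, zero_smul, add_zero]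
        exact hpq)
      exact ⟨h1 0, h1 1⟩
    · rw [LinearIndependent.pair_iff]
      intro p q hpq
      have h1 := hli' ![p, 0, q] (by
        rw [Fin.sum_univ_three]
        simp only [Matrix.cons_val_zero, Matrix.cons_val_one, Matrix.cons_val_two,
          Matrix.head_cons, Matrix.tail_cons, zero_smul, add_zero]
        exact hpq)
      exact ⟨h1 0, h1 2⟩
  obtain ⟨hli1, hli2⟩ := hpair
  have hne : ∀ x : E, LinearIndependent ℝ ![a, x] → a ≠ x := by
    rintro x hx rfl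
    rw [LinearIndependent.pair_iff] at hx
    have := hx 1 (-1) (by rw [one_smul, neg_smul, one_smul, add_neg_cancel])
    exact one_ne_zero this.1
  have hax1 := hne x1 hli1
  have hax2 := hne x2 hli2
  obtain ⟨s1, t1, hs1, ht1, has1, hat1, hst1, hb1⟩ := belt_norm hd hy1 hax1 hact1
    (D.belt a (Or.inl rfl) y1 hy1 x1 hax1 hact1)
  obtain ⟨s2, t2, hs2, ht2, has2, hat2, hst2, hb2⟩ := belt_norm hd hy2 hax2 hact2
    (D.belt a (Or.inl rfl) y2 hy2 x2 hax2 hact2)
  have ha1 : a ∈ Submodule.span ℝ ({a, x1} : Set E) := Submodule.subset_span (by simp)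
  have ha2 : a ∈ Submodule.span ℝ ({a, x2} : Set E) := Submodule.subset_span (by simp)
  -- a vector orthogonal to both vectors of one plane and to one of the other plane is zero
  have z12 : ∀ q C : E, q ∈ Submodule.span ℝ ({a, x2} : Set E) → LinearIndependent ℝ ![a, q] →
      ⟪s1, C⟫ = 0 → ⟪t1, C⟫ = 0 → ⟪q, C⟫ = 0 → C = 0 := by
    intro q C hq hli' h1 h2 h3
    obtain ⟨h4, h5⟩ := perp_plane hli1 hs1 ht1 hst1 h1 h2
    obtain ⟨-, h6⟩ := perp_plane hli2 ha2 hq hli' h4 h3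
    exact zero_of_three hd hli h4 h5 h6
  have z21 : ∀ p C : E, p ∈ Submodule.span ℝ ({a, x1} : Set E) → LinearIndependent ℝ ![a, p] →
      ⟪s2, C⟫ = 0 → ⟪t2, C⟫ = 0 → ⟪p, C⟫ = 0 → C = 0 := by
    intro p C hp hli' h1 h2 h3
    obtain ⟨h4, h5⟩ := perp_plane hli2 hs2 ht2 hst2 h1 h2
    obtain ⟨-, h6⟩ := perp_plane hli1 ha1 hp hli' h4 h3
    exact zero_of_three hd hli h4 h6 h5
  have hpq : ∀ p q : E, p ∈ Submodule.span ℝ ({a, x1} : Set E) → LinearIndependent ℝ ![a, p] →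
      q ∈ Submodule.span ℝ ({a, x2} : Set E) → LinearIndependent ℝ ![a, q] →
      LinearIndependent ℝ ![p, q] := by
    intro p q hp hap hq haq
    obtain ⟨α1, β1, rfl⟩ := Submodule.mem_span_pair.1 hp
    obtain ⟨α2, β2, rfl⟩ := Submodule.mem_span_pair.1 hq
    have hβ : ∀ (α β : ℝ) (x : E), LinearIndependent ℝ ![a, α • a + β • x] → β ≠ 0 := by
      intro α β x hx hβ0
      rw [LinearIndependent.pair_iff] at hx
      have := hx (-α) 1 (by rw [hβ0, zero_smul, add_zero, one_smul, neg_smul, neg_add_cancel])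
      exact one_ne_zero this.2
    have hβ1 := hβ α1 β1 x1 hap
    have hβ2 := hβ α2 β2 x2 haq
    rw [LinearIndependent.pair_iff]
    intro c d hcd
    rw [Fintype.linearIndependent_iff] at hli
    have h1 := hli ![c * α1 + d * α2, c * β1, d * β2] (by
      rw [Fin.sum_univ_three]
      simp only [Matrix.cons_val_zero, Matrix.cons_val_one, Matrix.cons_val_two,
        Matrix.head_cons, Matrix.tail_cons]
      rw [← hcd]
      module)
    have h2 := h1 1
    have h3 := h1 2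
    simp only [Matrix.cons_val_one, Matrix.cons_val_two, Matrix.head_cons, Matrix.tail_cons] at h2 h3
    exact ⟨(mul_eq_zero.1 h2).resolve_right hβ1, (mul_eq_zero.1 h3).resolve_right hβ2⟩
  obtain ⟨H0, hH0, h0s1, h0s2⟩ := perp2 hd s1 s2
  obtain ⟨H1, hH1, h1s1, h1t2⟩ := perp2 hd s1 t2
  obtain ⟨H2, hH2, h2t1, h2s2⟩ := perp2 hd t1 s2
  obtain ⟨H3, hH3, h3t1, h3t2⟩ := perp2 hd t1 t2
  have n0t1 : ⟪t1, H0⟫ ≠ 0 := fun h => hH0 (z12 s2 H0 hs2 has2 h0s1 h h0s2)
  have n0t2 : ⟪t2, H0⟫ ≠ 0 := fun h => hH0 (z21 s1 H0 hs1 has1 h0s2 h h0s1)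
  have n1t1 : ⟪t1, H1⟫ ≠ 0 := fun h => hH1 (z12 t2 H1 ht2 hat2 h1s1 h h1t2)
  have n1s2 : ⟪s2, H1⟫ ≠ 0 := fun h => hH1 (z21 s1 H1 hs1 has1 h h1t2 h1s1)
  have n2s1 : ⟪s1, H2⟫ ≠ 0 := fun h => hH2 (z12 s2 H2 hs2 has2 h h2t1 h2s2)
  have n2t2 : ⟪t2, H2⟫ ≠ 0 := fun h => hH2 (z21 t1 H2 ht1 hat1 h2s2 h h2t1)
  have n3s1 : ⟪s1, H3⟫ ≠ 0 := fun h => hH3 (z12 t2 H3 ht2 hat2 h h3t1 h3t2)
  have n3s2 : ⟪s2, H3⟫ ≠ 0 := fun h => hH3 (z21 t1 H3 ht1 hat1 h h3t2 h3t1)
  have T012 : LinearIndependent ℝ ![H0, H1, H2] := li3 hH0 h0s1 h1s1 n2s1 h0s2 n1s2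
  have T103 : LinearIndependent ℝ ![H1, H0, H3] := li3 hH1 h1s1 h0s1 n3s1 h1t2 n0t2
  have T230 : LinearIndependent ℝ ![H2, H3, H0] := li3 hH2 h2t1 h3t1 n0t1 h2s2 n3s2
  have T321 : LinearIndependent ℝ ![H3, H2, H1] := li3 hH3 h3t1 h2t1 n1t1 h3t2 n2t2
  have perm6 : ∀ x y z : E, LinearIndependent ℝ ![x, y, z] →
      LinearIndependent ℝ ![x, z, y] ∧ LinearIndependent ℝ ![y, x, z] ∧
      LinearIndependent ℝ ![y, z, x] ∧ LinearIndependent ℝ ![z, x, y] ∧
      LinearIndependent ℝ ![z, y, x] := by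
    intro x y z h
    have a1 := (li_perm h).1
    have a2 := (li_perm h).2
    have a3 := (li_perm a1).2
    have a4 := (li_perm a2).1
    have a5 := (li_perm a3).1
    exact ⟨a2, a1, a3, a4, a5⟩
  obtain ⟨b1, b2, b3, b4, b5⟩ := perm6 _ _ _ T012
  obtain ⟨c1, c2, c3, c4, c5⟩ := perm6 _ _ _ T103
  obtain ⟨d1, d2, d3, d4, d5⟩ := perm6 _ _ _ T230
  obtain ⟨e1, e2, e3, e4, e5⟩ := perm6 _ _ _ T321
  refine ⟨![H0, H1, H2, H3], ?_, ?_⟩
  · intro i j k hij hik hjk
    fin_cases i <;> fin_cases j <;> fin_cases k <;>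
      first
      | exact absurd rfl hij
      | exact absurd rfl hik
      | exact absurd rfl hjk
      | assumption
  · intro y hy u v huv hact h hu hv hah
    have h0 : h ≠ 0 := by
      rintro rfl
      exact hah (inner_zero_right _)
    have k1 := dir1 hd D.cover hy1 hax1 hact1 hb1 hy huv hact hu hv hah
    have k2 := dir1 hd D.cover hy2 hax2 hact2 hb2 hy huv hact hu hv hah
    have fin : ∀ (i : Fin 4) (p q : E), LinearIndependent ℝ ![p, q] →
        ![H0, H1, H2, H3] i ≠ 0 → ⟪p, ![H0, H1, H2, H3] i⟫ = 0 → ⟪q, ![H0, H1, H2, H3] i⟫ = 0 →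
        ⟪p, h⟫ = 0 → ⟪q, h⟫ = 0 → ∃ i, ∃ r : ℝ, r ≠ 0 ∧ h = r • ![H0, H1, H2, H3] i := by
      intro i p q hli' hne' hp hq hph hqh
      obtain ⟨r, hr⟩ := par_of_perp hd hli' hne' hp hq hph hqh
      refine ⟨i, r, ?_, hr⟩
      rintro rfl
      exact h0 (by rw [hr, zero_smul])
    rcases k1 with k1 | k1 <;> rcases k2 with k2 | k2
    · exact fin 0 s1 s2 (hpq s1 s2 hs1 has1 hs2 has2) hH0 h0s1 h0s2 k1 k2
    · exact fin 1 s1 t2 (hpq s1 t2 hs1 has1 ht2 hat2) hH1 h1s1 h1t2 k1 k2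
    · exact fin 2 t1 s2 (hpq t1 s2 ht1 hat1 hs2 has2) hH2 h2t1 h2s2 k1 k2
    · exact fin 3 t1 t2 (hpq t1 t2 ht1 hat1 ht2 hat2) hH3 h3t1 h3t2 k1 k2

end Pool.FF24.D3
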