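import Pool.Agent.FF24.Face

set_option autoImplicit false

/-!
# FF24/Fin: stars are finite, own coordinates, the number delta

`star_finite`: `σ ↦ (σ.1.1, act (crd σ p))` is injective on the star (`lab_eq`) with values in a finite set.
`W_finite`: `W y` is the set of the own coordinates of the points of a star: for `τ = (1, 0)`, `p = y`.
`near`: for each `y' ∈ W y` and each of the finitely many `u` with `y' ∉ fc u` (a closed set) a positive number.
-/

open Set Metric Filter Topology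
open scoped RealInnerProductSpace

namespace Pool.FF24

variable {E : Type*} [NormedAddCommGroup E] [InnerProductSpace ℝ E] {P : HPoly E} (g : Glue P)

theorem star_finite (p : E) (τ : g.Lab) : {σ | g.R p τ σ}.Finite := by
  have hinj : Set.InjOn (fun σ : g.Lab => (σ.1.1, P.act (crd σ.1 p))) {σ | g.R p τ σ} := by
    intro σ hσ σ' hσ' h
    obtain ⟨h1, h2⟩ := Prod.mk.inj h
    exact lab_eq g hσ hσ' h1 h2
  have hfin : (({1, -1} : Set ℝ) ×ˢ {b : Set E | b ⊆ (P.N : Set E)}).Finite :=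
    (Set.toFinite _).prod P.N.finite_toSet.finite_subsets
  refine Set.Finite.of_injOn ?_ hinj hfin
  intro σ _
  refine ⟨?_, fun u hu => hu.1⟩
  rcases sign g σ with h | h
  · exact Or.inl h
  · exact Or.inr h

/-- own coordinates which are reached from `y` -/
def W (y : E) : Set E :=
  {y' | Relation.ReflTransGen (fun a b => ∃ u ∈ P.N, a ∈ P.fc u ∧ b = g.j u a) y y'}

/-- the label of the tile `P` -/
def lab0 : g.Lab := ⟨(1, 0), Glue.Orb.base⟩

theorem crd_lab0 (y : E) : crd (lab0 g).1 y = y := by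
  simp [crd, lab0]

theorem W_star {y : E} (hy : y ∈ P.body) {y' : E} (h : y' ∈ W g y) :
    ∃ σ : g.Lab, g.R y (lab0 g) σ ∧ crd σ.1 y = y' := by
  have h' : Relation.ReflTransGen (fun a b => ∃ u ∈ P.N, a ∈ P.fc u ∧ b = g.j u a) y y' := h
  induction h' with
  | refl =>
    refine ⟨lab0 g, R_refl g ?_, crd_lab0 g y⟩
    show crd (lab0 g).1 y ∈ P.body
    rw [crd_lab0]
    exact hy
  | @tail b c hb hbc ih =>
    obtain ⟨σ, hσ, hc⟩ := ih hb
    obtain ⟨u, hu, hbu, rfl⟩ := hbc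
    refine ⟨nbL g hu σ, R_step g hσ ⟨u, hu, by rw [hc]; exact hbu, rfl⟩, ?_⟩
    show crd (g.nb u σ.1) y = _
    rw [crd_nb g (sign g σ), hc]

theorem W_finite {y : E} (hy : y ∈ P.body) : (W g y).Finite := by
  refine ((star_finite g y (lab0 g)).image (fun σ : g.Lab => crd σ.1 y)).subset ?_
  intro y' h
  obtain ⟨σ, hσ, hc⟩ := W_star g hy h
  exact ⟨σ, hσ, hc⟩

theorem crd_mem_W {p : E} {τ σ : g.Lab} (h : g.R p τ σ) : crd σ.1 p ∈ W g (crd τ.1 p) := by
  obtain ⟨-, h'⟩ := h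
  induction h' with
  | refl => exact Relation.ReflTransGen.refl
  | @tail b c hb hbc ih =>
    obtain ⟨u, hu, hbu, hc⟩ := hbc
    refine Relation.ReflTransGen.tail ih ⟨u, hu, hbu, ?_⟩
    rw [hc, crd_nb g (sign g b)]

theorem body_closed : IsClosed P.body := by
  have : P.body = ⋂ u ∈ P.N, {z : E | ⟪u, z⟫ ≤ P.h u} := by
    ext z
    simp [HPoly.body]
  rw [this]
  exact isClosed_biInter fun u _ =>
    isClosed_le (continuous_const.inner continuous_id) continuous_const

theorem fc_closed (u : E) : IsClosed (P.fc u) := by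
  have : P.fc u = P.body ∩ {z : E | ⟪u, z⟫ = P.h u} := by
    ext z
    simp [HPoly.fc]
  rw [this]
  exact body_closed.inter (isClosed_eq (continuous_const.inner continuous_id) continuous_const)

theorem near {y : E} (hy : y ∈ P.body) : ∃ δ > 0, ∀ y' ∈ W g y, ∀ u ∈ P.N, ∀ z ∈ P.fc u,
    dist z y' < δ → y' ∈ P.fc u := by
  have h1 : ∀ y' ∈ W g y, ∀ u ∈ P.N, ∀ᶠ δ in 𝓝[>] (0 : ℝ), ∀ z ∈ P.fc u,
      dist z y' < δ → y' ∈ P.fc u := by
    intro y' _ u _
    by_cases hy' : y' ∈ P.fc u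
    · exact Eventually.of_forall fun _ _ _ _ => hy'
    · obtain ⟨ε, hε, hb⟩ := Metric.isOpen_iff.1 (fc_closed (P := P) u).isOpen_compl y' hy'
      filter_upwards [Ioo_mem_nhdsGT hε] with δ hδ z hz hd
      exact absurd hz (hb (mem_ball.2 (hd.trans hδ.2)))
  have h2 : ∀ᶠ δ in 𝓝[>] (0 : ℝ), ∀ y' ∈ W g y, ∀ u ∈ P.N, ∀ z ∈ P.fc u,
      dist z y' < δ → y' ∈ P.fc u :=
    ((W_finite g hy).eventually_all).2 fun y' hy' =>
      (Filter.eventually_all_finset P.N).2 (h1 y' hy')
  obtain ⟨δ, h3, h4⟩ := (h2.and self_mem_nhdsWithin).exists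
  exact ⟨δ, h4, h3⟩

end Pool.FF24
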