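import Pool.Agent.FF25.LemA
import Pool.Agent.FF57.CDef
import Pool.Agent.FF79.NecE
import Pool.Agent.FF24.Fin
import Pool.Agent.FF24.Act

set_option autoImplicit false

/-!
# FF24/D3Face: faces of a polytope in dimension three

`Fw P w` = the face in direction `w`.
-/

open Set Metric
open scoped RealInnerProductSpace

namespace Pool.FF24.D3

open Pool.FF24 Pool.FF25 Pool.FF38 Pool.FF57

variable {E : Type*} [NormedAddCommGroup E] [InnerProductSpace ℝ E]

/-! ### linear algebra -/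

theorem pair_sym {u v : E} (h : LinearIndependent ℝ ![u, v]) : LinearIndependent ℝ ![v, u] := by
  rw [LinearIndependent.pair_iff] at h ⊢
  intro s t hst
  have := h t s (by rw [add_comm]; exact hst)
  exact ⟨this.2, this.1⟩

theorem finrank_pair {u v : E} (h : LinearIndependent ℝ ![u, v]) :
    Module.finrank ℝ (Submodule.span ℝ ({u, v} : Set E)) = 2 := by
  have h1 := finrank_span_eq_card h
  have h2 : Set.range ![u, v] = {u, v} := by
    ext z
    simp only [Set.mem_range, Fin.exists_fin_two, Matrix.cons_val_zero, Matrix.cons_val_one,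
      Set.mem_insert_iff, Set.mem_singleton_iff]
    exact ⟨fun h => h.imp Eq.symm Eq.symm, fun h => h.imp Eq.symm Eq.symm⟩
  rw [h2] at h1
  simpa using h1

section
variable (h3 : Module.finrank ℝ E = 3)
include h3

theorem fd : FiniteDimensional ℝ E := Module.finite_of_finrank_pos (by rw [h3]; norm_num)

theorem perp2 (u v : E) : ∃ e : E, e ≠ 0 ∧ ⟪u, e⟫ = 0 ∧ ⟪v, e⟫ = 0 := by
  have := fd h3
  have h1 : Module.finrank ℝ (Submodule.span ℝ ({u, v} : Set E)) ≤ 2 := by
    classical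
    refine (finrank_span_le_card ({u, v} : Set E)).trans ?_
    rw [Set.toFinset_card]
    exact (Set.toFinset_card ({u, v} : Set E) ▸ by
      rw [← Set.ncard_eq_toFinset_card', Set.ncard_eq_toFinset_card']
      rw [← Set.ncard_eq_toFinset_card']
      exact (Set.ncard_insert_le u {v}).trans (by rw [Set.ncard_singleton]))
  have h2 := Submodule.finrank_add_finrank_orthogonal (Submodule.span ℝ ({u, v} : Set E))
  rw [h3] at h2
  have h4 : 0 < Module.finrank ℝ (Submodule.span ℝ ({u, v} : Set E))ᗮ := by omega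
  have : Nontrivial (Submodule.span ℝ ({u, v} : Set E))ᗮ := Module.finrank_pos_iff.1 h4
  obtain ⟨e, he⟩ := exists_ne (0 : (Submodule.span ℝ ({u, v} : Set E))ᗮ)
  have h5 := e.2
  rw [Submodule.mem_orthogonal] at h5
  exact ⟨e, fun h => he (Subtype.ext h), h5 u (Submodule.subset_span (by simp)),
    h5 v (Submodule.subset_span (by simp))⟩

theorem span_of_perp {u v e w : E} (hli : LinearIndependent ℝ ![u, v]) (he : e ≠ 0)
    (hu : ⟪u, e⟫ = 0) (hv : ⟪v, e⟫ = 0) (hw : ⟪w, e⟫ = 0) :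
    w ∈ Submodule.span ℝ ({u, v} : Set E) := by
  have := fd h3
  have h1 : Submodule.span ℝ ({u, v} : Set E) ≤ (Submodule.span ℝ ({e} : Set E))ᗮ := by
    rw [Submodule.span_le]
    rintro z (rfl | rfl)
    · exact Submodule.mem_orthogonal_singleton_iff_inner_left.2 hu
    · exact Submodule.mem_orthogonal_singleton_iff_inner_left.2 hv
  have h2 := Submodule.finrank_add_finrank_orthogonal (Submodule.span ℝ ({e} : Set E))
  rw [h3, finrank_span_singleton he] at h2
  have h4 : Submodule.span ℝ ({u, v} : Set E) = (Submodule.span ℝ ({e} : Set E))ᗮ :=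
    Submodule.eq_of_le_of_finrank_eq h1 (by rw [finrank_pair hli]; omega)
  rw [h4]
  exact Submodule.mem_orthogonal_singleton_iff_inner_left.2 hw

theorem par_of_perp {u v e e' : E} (hli : LinearIndependent ℝ ![u, v]) (he : e ≠ 0)
    (hu : ⟪u, e⟫ = 0) (hv : ⟪v, e⟫ = 0) (hu' : ⟪u, e'⟫ = 0) (hv' : ⟪v, e'⟫ = 0) :
    ∃ r : ℝ, e' = r • e := by
  have := fd h3
  have h2 := Submodule.finrank_add_finrank_orthogonal (Submodule.span ℝ ({u, v} : Set E))
  rw [h3, finrank_pair hli] at h2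
  have h4 : Module.finrank ℝ (Submodule.span ℝ ({u, v} : Set E))ᗮ = 1 := by omega
  have hmem : ∀ x : E, ⟪u, x⟫ = 0 → ⟪v, x⟫ = 0 → x ∈ (Submodule.span ℝ ({u, v} : Set E))ᗮ := by
    intro x h1 h2
    rw [Submodule.mem_orthogonal]
    intro z hz
    obtain ⟨a, b, rfl⟩ := Submodule.mem_span_pair.1 hz
    rw [inner_add_left, inner_smul_left, inner_smul_left, h1, h2]
    simp
  have h5 := (finrank_eq_one_iff_of_nonzero' (⟨e, hmem e hu hv⟩ :
    (Submodule.span ℝ ({u, v} : Set E))ᗮ) (fun h => he (congrArg Subtype.val h))).1 h4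
    ⟨e', hmem e' hu' hv'⟩
  obtain ⟨c, hc⟩ := h5
  exact ⟨c, (congrArg Subtype.val hc).symm⟩

theorem zero_of_three {u v w x : E} (hli : LinearIndependent ℝ ![u, v, w])
    (hu : ⟪u, x⟫ = 0) (hv : ⟪v, x⟫ = 0) (hw : ⟪w, x⟫ = 0) : x = 0 := by
  have := fd h3
  have h1 := hli.span_eq_top_of_card_eq_finrank (by rw [h3]; rfl)
  have h2 : x ∈ Submodule.span ℝ (Set.range ![u, v, w]) := by rw [h1]; trivial
  have h4 : ∀ z ∈ Submodule.span ℝ (Set.range ![u, v, w]), ⟪z, x⟫ = 0 := by
    intro z hz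
    induction hz using Submodule.span_induction with
    | mem z hz =>
      obtain ⟨i, rfl⟩ := hz
      fin_cases i
      · exact hu
      · exact hv
      · exact hw
    | zero => exact inner_zero_left _
    | add a b _ _ ha hb => rw [inner_add_left, ha, hb, add_zero]
    | smul r a _ ha => rw [inner_smul_left, ha, mul_zero]
  exact inner_self_eq_zero.1 (h4 x h2)

end

/-! ### faces -/

variable {P : HPoly E}

/-- the face in the direction of a positive combination of the two normals of a ridge -/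
theorem fce_comb {y u v : E} (hy : y ∈ P.body) (h : P.act y = {u, v}) {α β : ℝ} (hα : 0 < α)
    (hβ : 0 < β) : Fw P (α • u + β • v) = P.mf y := by
  have hu : u ∈ P.act y := by rw [h]; simp
  have hv : v ∈ P.act y := by rw [h]; simp
  have hval : ∀ z ∈ P.body, ⟪α • u + β • v, z⟫ ≤ α * P.h u + β * P.h v := by
    intro z hz
    rw [inner_add_left, real_inner_smul_left, real_inner_smul_left]
    have h1 := mul_le_mul_of_nonneg_left (hz u hu.1) hα.le
    have h2 := mul_le_mul_of_nonneg_left (hz v hv.1) hβ.le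
    linarith
  have hy1 : ⟪α • u + β • v, y⟫ = α * P.h u + β * P.h v := by
    rw [inner_add_left, real_inner_smul_left, real_inner_smul_left, hu.2, hv.2]
  rw [mf_eq hy]
  ext z
  constructor
  · rintro ⟨hz, hz2⟩
    refine ⟨hz, ?_⟩
    have h1 := hz2 y hy
    rw [hy1, inner_add_left, real_inner_smul_left, real_inner_smul_left] at h1
    have h2 := mul_le_mul_of_nonneg_left (hz u hu.1) hα.le
    have h4 := mul_le_mul_of_nonneg_left (hz v hv.1) hβ.le
    rw [h]
    rintro x (rfl | hx)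
    · refine ⟨hu.1, ?_⟩
      exact mul_left_cancel₀ hα.ne' (by linarith)
    · rw [mem_singleton_iff.1 hx]
      refine ⟨hv.1, ?_⟩
      exact mul_left_cancel₀ hβ.ne' (by linarith)
  · rintro ⟨hz, hz2⟩
    refine ⟨hz, fun z' hz' => ?_⟩
    have h1 := (hz2 hu).2
    have h2 := (hz2 hv).2
    have h4 : ⟪α • u + β • v, z⟫ = α * P.h u + β * P.h v := by
      rw [inner_add_left, real_inner_smul_left, real_inner_smul_left, h1, h2]
    rw [h4]
    exact hval z' hz'

theorem fce_smul {w : E} {r : ℝ} (hr : 0 < r) : Fw P (r • w) = Fw P w := by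
  ext z
  constructor
  · rintro ⟨hz, h⟩
    refine ⟨hz, fun y hy => ?_⟩
    have h1 := h y hy
    rw [real_inner_smul_left, real_inner_smul_left] at h1
    exact le_of_mul_le_mul_left h1 hr
  · rintro ⟨hz, h⟩
    refine ⟨hz, fun y hy => ?_⟩
    rw [real_inner_smul_left, real_inner_smul_left]
    exact mul_le_mul_of_nonneg_left (h y hy) hr.le

/-- minimal faces of points of a face lie in the face -/
theorem mf_sub_fce {y w : E} (hy : y ∈ Fw P w) : P.mf y ⊆ Fw P w := by
  rintro z ⟨hz, s, hs, hm⟩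
  refine ⟨hz, fun z' hz' => ?_⟩
  have h1 := hy.2 _ hm
  rw [inner_add_right, real_inner_smul_right, inner_sub_right] at h1
  have h2 := hy.2 z' hz'
  have h3 : s * (⟪w, y⟫ - ⟪w, z⟫) ≤ 0 := by linarith
  have h4 : ⟪w, y⟫ - ⟪w, z⟫ ≤ 0 := by
    by_contra hc
    push Not at hc
    have := mul_pos hs hc
    linarith
  linarith

theorem tangent_le {y w : E} (hy : y ∈ Fw P w) {x : E} (hx : ∀ u ∈ P.act y, ⟪u, x⟫ ≤ 0) :
    ⟪w, x⟫ ≤ 0 := by
  obtain ⟨s, hs, h⟩ := tangent hy.1 hx
  have h1 := hy.2 _ h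
  rw [inner_add_right, real_inner_smul_right] at h1
  by_contra hc
  push Not at hc
  have := mul_pos hs hc
  linarith

/-- Farkas for two vectors -/
theorem farkas2 {u v w : E} (hli : LinearIndependent ℝ ![u, v])
    (h : ∀ x, ⟪u, x⟫ ≤ 0 → ⟪v, x⟫ ≤ 0 → ⟪w, x⟫ ≤ 0) :
    ∃ α β : ℝ, 0 ≤ α ∧ 0 ≤ β ∧ w = α • u + β • v := by
  set S := Submodule.span ℝ ({u, v} : Set E) with hS
  have : FiniteDimensional ℝ S := FiniteDimensional.span_of_finite ℝ (Set.toFinite _)
  set p : E := (S.starProjection w : E) with hp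
  have hpS : p ∈ S := Submodule.starProjection_apply_mem S w
  have hperp : ∀ z ∈ S, ⟪z, w - p⟫ = 0 := by
    intro z hz
    have := Submodule.sub_starProjection_mem_orthogonal (K := S) w
    rw [Submodule.mem_orthogonal] at this
    exact this z hz
  have huS : u ∈ S := Submodule.subset_span (by simp)
  have hvS : v ∈ S := Submodule.subset_span (by simp)
  have h1 := h (w - p) (hperp u huS).le (hperp v hvS).le
  have h2 : ⟪w - p, w - p⟫ ≤ 0 := by
    rw [inner_sub_left, hperp p hpS, sub_zero]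
    exact h1
  have h4 : w - p = 0 := by
    have := real_inner_self_nonneg (x := w - p)
    exact inner_self_eq_zero.1 (le_antisymm h2 this)
  have hw : w = p := sub_eq_zero.1 h4
  rw [← hw] at hpS
  obtain ⟨α, β, hab⟩ := Submodule.mem_span_pair.1 hpS
  refine ⟨α, β, ?_, ?_, hab.symm⟩
  · obtain ⟨x, hx1, hx2⟩ := Pool.FF79.exists_dual hli (-1) 0
    have h5 := h x (by rw [hx1]; norm_num) hx2.le
    rw [← hab, inner_add_left, real_inner_smul_left, real_inner_smul_left, hx1, hx2] at h5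
    linarith
  · obtain ⟨x, hx1, hx2⟩ := Pool.FF79.exists_dual hli 0 (-1)
    have h5 := h x hx1.le (by rw [hx2]; norm_num)
    rw [← hab, inner_add_left, real_inner_smul_left, real_inner_smul_left, hx1, hx2] at h5
    linarith

theorem fce_two {y u v w : E} (hy : y ∈ Fw P w) (huv : u ≠ v) (h : P.act y = {u, v}) :
    ∃ α β : ℝ, 0 ≤ α ∧ 0 ≤ β ∧ w = α • u + β • v := by
  have hu : u ∈ P.act y := by rw [h]; simp
  have hv : v ∈ P.act y := by rw [h]; simp
  refine farkas2 (act_pair hy.1 hu hv huv) fun x h1 h2 => tangent_le hy ?_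
  rw [h]
  rintro z (rfl | hz)
  · exact h1
  · rw [mem_singleton_iff.1 hz]
    exact h2

theorem fce_one {y u w : E} (hy : y ∈ Fw P w) (h : P.act y = {u}) :
    ∃ α : ℝ, 0 ≤ α ∧ w = α • u := by
  have hu : u ∈ P.act y := by rw [h]; simp
  have huu : ⟪u, u⟫ = 1 := by rw [real_inner_self_eq_norm_sq, P.unit u hu.1]; norm_num
  have key : ∀ x, ⟪u, x⟫ ≤ 0 → ⟪w, x⟫ ≤ 0 := by
    intro x hx
    refine tangent_le hy ?_
    rw [h]
    intro z hz
    rw [mem_singleton_iff.1 hz]
    exact hx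
  set x : E := w - ⟪u, w⟫ • u with hx
  have hux : ⟪u, x⟫ = 0 := by rw [hx, inner_sub_right, real_inner_smul_right, huu]; ring
  have h1 := key x hux.le
  have h2 : ⟪x, x⟫ = ⟪w, x⟫ := by
    conv_lhs => rw [hx]
    rw [inner_sub_left, real_inner_smul_left]
    rw [← hx, hux]
    ring
  have h4 : x = 0 := by
    have := real_inner_self_nonneg (x := x)
    exact inner_self_eq_zero.1 (le_antisymm (by rw [h2]; exact h1) this)
  have hw : w = ⟪u, w⟫ • u := sub_eq_zero.1 h4
  refine ⟨⟪u, w⟫, ?_, hw⟩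
  have h5 := key (-u) (by rw [inner_neg_right, huu]; norm_num)
  rw [inner_neg_right] at h5
  rw [real_inner_comm]
  linarith

theorem fce_zero {y w : E} (hy : y ∈ Fw P w) (h : P.act y = ∅) : w = 0 := by
  have h1 := tangent_le hy (x := w) (by rw [h]; intro u hu; exact absurd hu (notMem_empty u))
  exact inner_self_eq_zero.1 (le_antisymm h1 real_inner_self_nonneg)

/-- the points with at least three active facets -/
def vert (P : HPoly E) : Set E := {y | y ∈ P.body ∧ ∃ u v w, u ∈ P.act y ∧ v ∈ P.act y ∧ w ∈ P.act y ∧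
  u ≠ v ∧ u ≠ w ∧ v ≠ w}

theorem vert_finite (h3 : Module.finrank ℝ E = 3) : (vert P).Finite := by
  have hfin : ((P.N : Set E) ×ˢ ((P.N : Set E) ×ˢ (P.N : Set E))).Finite :=
    P.N.finite_toSet.prod (P.N.finite_toSet.prod P.N.finite_toSet)
  have hsub : vert P ⊆ ⋃ t ∈ ((P.N : Set E) ×ˢ ((P.N : Set E) ×ˢ (P.N : Set E))),
      {y | y ∈ P.body ∧ t.1 ∈ P.act y ∧ t.2.1 ∈ P.act y ∧ t.2.2 ∈ P.act y ∧
        t.1 ≠ t.2.1 ∧ t.1 ≠ t.2.2 ∧ t.2.1 ≠ t.2.2} := by
    rintro y ⟨hy, u, v, w, hu, hv, hw, h1, h2, h4⟩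
    simp only [mem_iUnion]
    exact ⟨(u, v, w), ⟨hu.1, hv.1, hw.1⟩, hy, hu, hv, hw, h1, h2, h4⟩
  refine (hfin.biUnion fun t _ => ?_).subset hsub
  refine Set.Subsingleton.finite ?_
  rintro y ⟨hy, hu, hv, hw, h1, h2, h4⟩ y' ⟨hy', hu', hv', hw', -, -, -⟩
  have hli := act_three hy hu hv hw h1 h2 h4
  have h0 : y - y' = 0 := by
    refine zero_of_three h3 hli ?_ ?_ ?_
    · rw [inner_sub_right, hu.2, hu'.2, sub_self]
    · rw [inner_sub_right, hv.2, hv'.2, sub_self]
    · rw [inner_sub_right, hw.2, hw'.2, sub_self]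
  exact sub_eq_zero.1 h0

theorem act_cases {y : E} (hy : y ∈ P.body) (hv : y ∉ vert P) :
    P.act y = ∅ ∨ (∃ u, P.act y = {u}) ∨ ∃ u v, u ≠ v ∧ P.act y = {u, v} := by
  by_contra hcon
  push Not at hcon
  obtain ⟨h0, h1, h2⟩ := hcon
  obtain ⟨u, hu⟩ := h0
  have hne : ∃ v ∈ P.act y, v ≠ u := by
    by_contra hc
    push Not at hc
    exact h1 u (Set.Subset.antisymm (fun z hz => hc z hz) (by rintro z rfl; exact hu))
  obtain ⟨v, hv', hvu⟩ := hne
  have hne2 : ∃ w ∈ P.act y, w ≠ u ∧ w ≠ v := by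
    by_contra hc
    push Not at hc
    refine h2 u v hvu.symm (Set.Subset.antisymm (fun z hz => ?_) ?_)
    · by_cases hzu : z = u
      · exact Or.inl hzu
      · exact Or.inr (hc z hz hzu)
    · rintro z (rfl | hz)
      · exact hu
      · rw [mem_singleton_iff.1 hz]; exact hv'
  obtain ⟨w, hw, hwu, hwv⟩ := hne2
  exact hv ⟨hy, u, v, w, hu, hv', hw, hvu.symm, hwu.symm, hwv.symm⟩

end Pool.FF24.D3
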