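import Pool.Agent.FF24.D3Face
import Pool.Agent.FF57.Edge
import Pool.Agent.FF57.Bcov
import Pool.Agent.FF57.Sup

set_option autoImplicit false

/-!
# FF24/D3Opp: off the four planes the opposite faces are reflections of each other (proof of FF57/Opp)
-/

open Set Metric
open scoped RealInnerProductSpace

namespace Pool.FF24.D3

open Pool.FF24 Pool.FF38 Pool.FF56 Pool.FF57

variable {E : Type*} [NormedAddCommGroup E] [InnerProductSpace ℝ E] {P : HPoly E}

/-- two sets congruent to the same centrally symmetric set are reflections of each other -/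
theorem cong_opp {M A B : Set E} {c0 : E} (h0 : ∀ z ∈ M, c0 - z ∈ M)
    (hA : ∃ c : E, A = (fun z => z + c) '' M ∨ A = (fun z => c - z) '' M)
    (hB : ∃ c : E, B = (fun z => z + c) '' M ∨ B = (fun z => c - z) '' M) :
    ∃ C : E, (∀ z ∈ A, C - z ∈ B) ∧ ∀ z ∈ B, C - z ∈ A := by
  obtain ⟨c1, rfl | rfl⟩ := hA <;> obtain ⟨c2, rfl | rfl⟩ := hB
  · refine ⟨c1 + c2 + c0, ?_, ?_⟩
    · rintro _ ⟨z, hz, rfl⟩
      exact ⟨c0 - z, h0 z hz, by simp only; abel⟩
    · rintro _ ⟨z, hz, rfl⟩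
      exact ⟨c0 - z, h0 z hz, by simp only; abel⟩
  · refine ⟨c1 + c2, ?_, ?_⟩
    · rintro _ ⟨z, hz, rfl⟩
      exact ⟨z, hz, by simp only; abel⟩
    · rintro _ ⟨z, hz, rfl⟩
      exact ⟨z, hz, by simp only; abel⟩
  · refine ⟨c1 + c2, ?_, ?_⟩
    · rintro _ ⟨z, hz, rfl⟩
      exact ⟨z, hz, by simp only; abel⟩
    · rintro _ ⟨z, hz, rfl⟩
      exact ⟨z, hz, by simp only; abel⟩
  · refine ⟨c1 + c2 - c0, ?_, ?_⟩
    · rintro _ ⟨z, hz, rfl⟩
      exact ⟨c0 - z, h0 z hz, by simp only; abel⟩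
    · rintro _ ⟨z, hz, rfl⟩
      exact ⟨c0 - z, h0 z hz, by simp only; abel⟩

/-- unit vectors which are dependent -/
theorem unit_dep {n a : E} (hn : ‖n‖ = 1) (ha : ‖a‖ = 1) (h : ¬ LinearIndependent ℝ ![n, a]) :
    n = a ∨ n = -a := by
  have hn0 : n ≠ 0 := by
    rintro rfl
    rw [norm_zero] at hn
    exact zero_ne_one hn
  rw [LinearIndependent.pair_iff' hn0] at h
  push Not at h
  obtain ⟨r, hr⟩ := h
  have h1 : |r| = 1 := by
    have h2 := congrArg norm hr
    rw [norm_smul, hn, ha, mul_one, Real.norm_eq_abs] at h2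
    exact h2
  rcases (abs_eq zero_le_one).1 h1 with h2 | h2
  · left; rw [← hr, h2, one_smul]
  · right; rw [← hr, h2, neg_smul, one_smul, neg_neg]

theorem opp2 [FiniteDimensional ℝ E] (hd : Module.finrank ℝ E = 3) {a : E} (D : Dat P a) {H : Fin 4 → E}
    (hH : ∀ y ∈ P.body, ∀ u v : E, u ≠ v → P.act y = {u, v} → ∀ h : E, ⟪u, h⟫ = 0 → ⟪v, h⟫ = 0 →
        ⟪a, h⟫ ≠ 0 → ∃ i, ∃ r : ℝ, r ≠ 0 ∧ h = r • H i) {w : E} (hw : w ≠ 0) (hw2 : ∀ i, ⟪w, H i⟫ ≠ 0)
    {x x' : E} (hx : x ∈ Fw P w) (hx' : x' ∈ Fw P w) (hne : x ≠ x') :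
    ∃ c : E, (∀ z ∈ Fw P w, c - z ∈ Fw P (-w)) ∧ ∀ z ∈ Fw P (-w), c - z ∈ Fw P w := by
  have hna : -a ∈ P.N := D.tra.1
  -- edge directions orthogonal to w are orthogonal to a
  have hdir : ∀ y ∈ P.body, ∀ u v : E, u ≠ v → P.act y = {u, v} → ∀ h : E, ⟪u, h⟫ = 0 →
      ⟪v, h⟫ = 0 → ⟪w, h⟫ = 0 → ⟪a, h⟫ = 0 := by
    intro y hy u v huv hact h hu hv hwh
    by_contra hcon
    obtain ⟨i, r, hr, hh⟩ := hH y hy u v huv hact h hu hv hcon
    rw [hh, real_inner_smul_right] at hwh
    rcases mul_eq_zero.1 hwh with h1 | h1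
    · exact hr h1
    · exact hw2 i h1
  rcases edge hd hw hx hx' hne with ⟨n, hn, t, ht, hwt⟩ | ⟨m, hm, u, v, huv, hact, hu, hv, α, β, hα, hβ, hwe⟩
  · -- a facet
    obtain ⟨y1, hy1, y2, hy2, x1, x2, hact1, hact2, hli⟩ := two_edges hd hn
    have hli' := hli
    rw [Fintype.linearIndependent_iff] at hli'
    have hnx : ∀ x : E, (x = x1 ∨ x = x2) → n ≠ x := by
      rintro x (rfl | rfl) rfl
      · have := hli' ![1, -1, 0] (by
          rw [Fin.sum_univ_three]
          simp only [Matrix.cons_val_zero, Matrix.cons_val_one, Matrix.cons_val_two,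
            Matrix.head_cons, Matrix.tail_cons, zero_smul, add_zero, one_smul, neg_smul]
          exact add_neg_cancel _) 0
        simp at this
      · have := hli' ![1, 0, -1] (by
          rw [Fin.sum_univ_three]
          simp only [Matrix.cons_val_zero, Matrix.cons_val_one, Matrix.cons_val_two,
            Matrix.head_cons, Matrix.tail_cons, zero_smul, add_zero, one_smul, neg_smul]
          exact add_neg_cancel _) 0
        simp at this
    obtain ⟨h1, h10, hn1, hx1⟩ := perp2 hd n x1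
    obtain ⟨h2, h20, hn2, hx2⟩ := perp2 hd n x2
    have ha1 := hdir y1 hy1 n x1 (hnx x1 (Or.inl rfl)) hact1 h1 hn1 hx1
      (by rw [hwt, real_inner_smul_left, hn1, mul_zero])
    have ha2 := hdir y2 hy2 n x2 (hnx x2 (Or.inr rfl)) hact2 h2 hn2 hx2
      (by rw [hwt, real_inner_smul_left, hn2, mul_zero])
    have hdep : ¬ LinearIndependent ℝ ![n, a] := by
      intro hna'
      obtain ⟨r, hr⟩ := par_of_perp hd hna' h10 hn1 ha1 hn2 ha2
      apply h20
      refine zero_of_three hd hli hn2 ?_ hx2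
      rw [hr, real_inner_smul_right, hx1, mul_zero]
    obtain ⟨c, hc⟩ := D.csy
    obtain ⟨-, c', hc'⟩ := D.tra
    have g1 : ∀ z ∈ P.fc a, (c + c') - z ∈ P.fc (-a) := by
      intro z hz
      have h5 := (hc' _).1 (hc z hz)
      have : c + c' - z = c - z + c' := by abel
      rw [this]
      exact h5
    have g2 : ∀ z ∈ P.fc (-a), (c + c') - z ∈ P.fc a := by
      intro z hz
      have h5 : z - c' ∈ P.fc a := (hc' _).2 (by rw [sub_add_cancel]; exact hz)
      have h6 := hc _ h5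
      have : c + c' - z = c - (z - c') := by abel
      rw [this]
      exact h6
    rcases unit_dep (P.unit n hn) (P.unit a D.mem) hdep with h5 | h5
    · subst h5
      have f1 : Fw P w = P.fc n := by rw [hwt]; exact Fw_fc hn ht
      have f2 : Fw P (-w) = P.fc (-n) := by rw [hwt, ← smul_neg]; exact Fw_fc hna ht
      rw [f1, f2]
      exact ⟨c + c', g1, g2⟩
    · subst h5
      have f1 : Fw P w = P.fc (-a) := by rw [hwt]; exact Fw_fc hna ht
      have f2 : Fw P (-w) = P.fc a := by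
        rw [hwt, smul_neg, neg_neg]; exact Fw_fc D.mem ht
      rw [f1, f2]
      exact ⟨c + c', g2, g1⟩
  · -- an edge
    have hh0 : x' - x ≠ 0 := sub_ne_zero.2 hne.symm
    have hwh : ⟪w, x' - x⟫ = 0 := by
      rw [hwe, inner_add_left, real_inner_smul_left, real_inner_smul_left, hu, hv]
      ring
    have hah := hdir m hm u v huv hact _ hu hv hwh
    have hu' : u ∈ P.act m := by rw [hact]; simp
    have hv' : v ∈ P.act m := by rw [hact]; simp
    have hliuv := act_pair hm hu' hv' huv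
    have haS : a ∈ Submodule.span ℝ ({u, v} : Set E) := span_of_perp hd hliuv hh0 hu hv hah
    have hwS : w ∈ Submodule.span ℝ ({u, v} : Set E) := by
      rw [hwe, Submodule.mem_span_pair]
      exact ⟨α, β, rfl⟩
    have ha0 : a ≠ 0 := by
      intro h0
      have := P.unit a D.mem
      rw [h0, norm_zero] at this
      exact zero_ne_one this
    obtain ⟨y', hy', u', v', huv', hact', hspan, -, hyw⟩ := D.cover m hm u v huv hact a haS ha0
    obtain ⟨b, hb, hby⟩ : ∃ b, (b = a ∨ b = -a) ∧ b ∈ P.act y' := by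
      rcases hyw with h1 | h1
      · refine ⟨a, Or.inl rfl, D.mem, ?_⟩
        have h2 : Fw P a = P.fc a := by
          have := Fw_fc D.mem (t := 1) one_pos
          rwa [one_smul] at this
        rw [h2] at h1
        exact h1.2
      · refine ⟨-a, Or.inr rfl, hna, ?_⟩
        have h2 : Fw P (-a) = P.fc (-a) := by
          have := Fw_fc hna (t := 1) one_pos
          rwa [one_smul] at this
        rw [h2] at h1
        exact h1.2
    obtain ⟨x'', hbx, hactb⟩ : ∃ x'', b ≠ x'' ∧ P.act y' = {b, x''} := by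
      rw [hact'] at hby
      rcases hby with h1 | h1
      · subst h1
        exact ⟨v', huv', hact'⟩
      · rw [mem_singleton_iff] at h1
        subst h1
        exact ⟨u', huv'.symm, by rw [hact', Set.pair_comm]⟩
    have hspan2 : Submodule.span ℝ ({b, x''} : Set E) = Submodule.span ℝ ({u, v} : Set E) := by
      rw [← hspan, ← hact', hactb]
    obtain ⟨s, t, hf1, hf2, α', β', hα', hβ', hwe'⟩ := belt_cover hd hy' hbx hactb
      (D.belt b hb y' hy' x'' hbx hactb) (w := w) (by rw [hspan2]; exact hwS)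
    have hFm : Fw P w = P.mf m := by rw [hwe]; exact Fw_mf hm hact hα hβ
    -- w is not a multiple of a facet normal
    have hnot : ∀ n ∈ P.N, ∀ r : ℝ, 0 ≤ r → w ≠ r • n := by
      intro n hn r hr hwr
      have hr' : 0 < r := by
        rcases hr.lt_or_eq with h1 | h1
        · exact h1
        · exact absurd (by rw [hwr, ← h1, zero_smul]) hw
      have h1 : m ∈ P.fc n := by
        rw [← Fw_fc hn hr', ← hwr, hFm]
        exact mf_self hm
      have h2 : n ∈ P.act m := ⟨hn, h1.2⟩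
      rw [LinearIndependent.pair_iff] at hliuv
      rw [hact] at h2
      rcases h2 with h2 | h2
      · rw [h2] at hwr
        have h5 := hliuv (α - r) β (by
          rw [sub_smul, ← hwr, hwe]
          abel)
        exact hβ.ne' h5.2
      · rw [mem_singleton_iff] at h2
        rw [h2] at hwr
        have h5 := hliuv α (β - r) (by
          rw [sub_smul, ← hwr, hwe]
          abel)
        exact hα.ne' h5.1
    obtain ⟨hst, y1, hy1, hact1, hc1⟩ := hf1
    obtain ⟨-, y2, hy2, hact2, hc2⟩ := hf2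
    have hsN : s ∈ P.N := by
      have : s ∈ P.act y1 := by rw [hact1]; simp
      exact this.1
    have htN : t ∈ P.N := by
      have : t ∈ P.act y1 := by rw [hact1]; simp
      exact this.1
    have hα'' : 0 < α' := by
      rcases hα'.lt_or_eq with h1 | h1
      · exact h1
      · exfalso
        rw [← h1, zero_smul, zero_add] at hwe'
        exact hnot t htN β' hβ' hwe'
    have hβ'' : 0 < β' := by
      rcases hβ'.lt_or_eq with h1 | h1
      · exact h1
      · exfalso
        rw [← h1, zero_smul, add_zero] at hwe'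
        exact hnot s hsN α' hα' hwe'
    have f1 : Fw P w = P.mf y1 := by rw [hwe']; exact Fw_mf hy1 hact1 hα'' hβ''
    have f2 : Fw P (-w) = P.mf y2 := by
      have : -w = α' • (-s) + β' • (-t) := by rw [hwe']; simp only [smul_neg]; abel
      rw [this]
      exact Fw_mf hy2 hact2 hα'' hβ''
    obtain ⟨c0, hc0⟩ := seg hd hy' hbx hactb
    rw [f1, f2]
    exact cong_opp hc0 hc1 hc2

theorem opp [FiniteDimensional ℝ E] (hd : Module.finrank ℝ E = 3) {a : E} (D : Dat P a) {H : Fin 4 → E}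
    (hH : ∀ y ∈ P.body, ∀ u v : E, u ≠ v → P.act y = {u, v} → ∀ h : E, ⟪u, h⟫ = 0 → ⟪v, h⟫ = 0 →
        ⟪a, h⟫ ≠ 0 → ∃ i, ∃ r : ℝ, r ≠ 0 ∧ h = r • H i) {w : E} (hw : w ≠ 0) (hw2 : ∀ i, ⟪w, H i⟫ ≠ 0) :
    ∃ c : E, (∀ z ∈ Fw P w, c - z ∈ Fw P (-w)) ∧ ∀ z ∈ Fw P (-w), c - z ∈ Fw P w := by
  by_cases h1 : ∃ x ∈ Fw P w, ∃ x' ∈ Fw P w, x ≠ x'
  · obtain ⟨x, hx, x', hx', hne⟩ := h1
    exact opp2 hd D hH hw hw2 hx hx' hne
  by_cases h2 : ∃ x ∈ Fw P (-w), ∃ x' ∈ Fw P (-w), x ≠ x'
  · obtain ⟨x, hx, x', hx', hne⟩ := h2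
    obtain ⟨c, h3, h4⟩ := opp2 hd D hH (w := -w) (neg_ne_zero.2 hw)
      (fun i h => hw2 i (by rw [inner_neg_left] at h; linarith)) hx hx' hne
    rw [neg_neg] at h3 h4
    exact ⟨c, h4, h3⟩
  push Not at h1 h2
  obtain ⟨x, hx⟩ := Fw_nonempty P w
  obtain ⟨x', hx'⟩ := Fw_nonempty P (-w)
  refine ⟨x + x', fun z hz => ?_, fun z hz => ?_⟩
  · rw [h1 z hz x hx, add_sub_cancel_left]
    exact hx'
  · rw [h2 z hz x' hx', add_sub_cancel_right]
    exact hx

end Pool.FF24.D3
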