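import Pool.Agent.FF24.Basic

set_option autoImplicit false

/-!
# FF24/Face: minimal faces

`mf_eq`: if `z ∈ P` and `y + s (y - z) ∈ P` then for `u` active at `y`: `<u, z> ≤ h u`, `<u, y + s (y - z)> ≤ h u` and `<u, y> = h u`
give `<u, z> = h u`. Conversely, for `u` not active at `y` the inequality at `y + s (y - z)` is strict at `s = 0`; finitely
many `u`; for `u` active at `y` (hence at `z`) it is an equality.
`j_mf`: `mf y ⊆ fc u` for `y ∈ fc u`, `mf y = {z ∈ fc u | ∃ s > 0, y + s (y - z) ∈ fc u}`, and `j u` is an affine map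
which maps `fc u` onto `fc (star u)` (inverse `j (star u)`).
`X_mf`: one step at a time.
-/

open Set Metric
open scoped RealInnerProductSpace

namespace Pool.FF24

variable {E : Type*} [NormedAddCommGroup E] [InnerProductSpace ℝ E] {P : HPoly E} (g : Glue P)

theorem inner_line (u y z : E) (s : ℝ) : ⟪u, y + s • (y - z)⟫ = ⟪u, y⟫ + s * (⟪u, y⟫ - ⟪u, z⟫) := by
  rw [inner_add_right, inner_smul_right, inner_sub_right]

theorem mf_eq {y : E} (hy : y ∈ P.body) : P.mf y = {z | z ∈ P.body ∧ P.act y ⊆ P.act z} := by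
  ext z
  constructor
  · rintro ⟨hz, s, hs, hm⟩
    refine ⟨hz, ?_⟩
    rintro u ⟨hu, huy⟩
    refine ⟨hu, le_antisymm (hz u hu) ?_⟩
    have h1 := hm u hu
    rw [inner_line, huy] at h1
    nlinarith
  · rintro ⟨hz, hsub⟩
    refine ⟨hz, ?_⟩
    have hev : ∀ᶠ s : ℝ in nhdsWithin 0 (Ioi 0), ∀ u ∈ P.N, ⟪u, y + s • (y - z)⟫ ≤ P.h u := by
      rw [Filter.eventually_all_finset]
      intro u hu
      by_cases hact : u ∈ P.act y
      · have hz' := (hsub hact).2
        refine Filter.Eventually.of_forall fun s => ?_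
        rw [inner_line, hact.2, hz']
        simp
      · have hlt : ⟪u, y⟫ < P.h u := lt_of_le_of_ne (hy u hu) (fun h' => hact ⟨hu, h'⟩)
        have hc : ContinuousAt (fun s : ℝ => ⟪u, y⟫ + s * (⟪u, y⟫ - ⟪u, z⟫)) 0 := by
          fun_prop
        have h0 : (fun s : ℝ => ⟪u, y⟫ + s * (⟪u, y⟫ - ⟪u, z⟫)) 0 < P.h u := by
          simpa using hlt
        have hev := hc.eventually_lt (continuousAt_const (y := P.h u)) h0
        refine (hev.filter_mono nhdsWithin_le_nhds).mono fun s hs => ?_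
        rw [inner_line]
        exact hs.le
    obtain ⟨s, hs, hs0⟩ := (hev.and self_mem_nhdsWithin).exists
    exact ⟨s, hs0, fun u hu => hs u hu⟩

theorem mf_self {y : E} (hy : y ∈ P.body) : y ∈ P.mf y := by
  rw [mf_eq hy]
  exact ⟨hy, subset_refl _⟩

theorem mf_bdd (y : E) : Bornology.IsBounded (P.mf y) := by
  obtain ⟨r, hr⟩ := P.bdd
  rw [isBounded_iff_forall_norm_le]
  exact ⟨r, fun z hz => hr z hz.1⟩

theorem j_line (u y z : E) (s : ℝ) :
    g.j u (y + s • (y - z)) = g.j u y + s • (g.j u y - g.j u z) := by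
  by_cases h : u ∈ g.I
  · have e : ∀ x, g.j u x = g.c u - x := fun x => if_pos h
    rw [e, e, e]
    have e2 : g.c u - y - (g.c u - z) = -(y - z) := by abel
    rw [e2, smul_neg]
    abel
  · have e : ∀ x, g.j u x = x + g.c u := fun x => if_neg h
    rw [e, e, e]
    have e2 : y + g.c u - (z + g.c u) = y - z := by abel
    rw [e2]
    abel

theorem mf_fc {u y z : E} (hu : u ∈ P.N) (hy : y ∈ P.fc u) (hz : z ∈ P.mf y) : z ∈ P.fc u := by
  rw [mf_eq hy.1] at hz
  exact ⟨hz.1, (hz.2 ⟨hu, hy.2⟩).2⟩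

theorem j_mf_sub {u y z : E} (hu : u ∈ P.N) (hy : y ∈ P.fc u) (hz : z ∈ P.mf y) :
    g.j u z ∈ P.mf (g.j u y) := by
  have hzf := mf_fc hu hy hz
  obtain ⟨hzb, s, hs, hm⟩ := hz
  refine ⟨(j_mem g hu hzf).1, s, hs, ?_⟩
  rw [← j_line]
  refine (j_mem g hu ⟨hm, ?_⟩).1
  rw [inner_line, hy.2, hzf.2]
  simp

theorem j_mf {u y : E} (hu : u ∈ P.N) (hy : y ∈ P.fc u) : g.j u '' P.mf y = P.mf (g.j u y) := by
  apply Set.Subset.antisymm
  · rintro _ ⟨z, hz, rfl⟩
    exact j_mf_sub g hu hy hz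
  · intro w hw
    have hu' := star_mem g hu
    have h1 := j_mf_sub g hu' (j_mem g hu hy) hw
    rw [j_j g hu] at h1
    refine ⟨g.j (g.star u) w, h1, ?_⟩
    have h2 := j_j g hu' w
    rwa [star_star g hu] at h2

theorem X_nb {τ : ℝ × E} (h : τ.1 = 1 ∨ τ.1 = -1) {u : E} (h' : (g.nb u τ).1 = 1 ∨ (g.nb u τ).1 = -1)
    (z : E) : X (g.nb u τ) (g.j u z) = X τ z := by
  have e := crd_nb g h u (X τ z)
  rw [crd_X h] at e
  rw [← e, X_crd h']

theorem X_mf {p : E} {τ σ : g.Lab} (h : g.R p τ σ) :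
    X σ.1 '' P.mf (crd σ.1 p) = X τ.1 '' P.mf (crd τ.1 p) := by
  obtain ⟨hp, h⟩ := h
  induction h with
  | refl => rfl
  | @tail υ σ _ hst ih =>
    rw [← ih]
    obtain ⟨u, hu, hc, hσ⟩ := hst
    have hs' : (g.nb u υ.1).1 = 1 ∨ (g.nb u υ.1).1 = -1 := by
      rw [← hσ]
      exact sign g σ
    rw [hσ, crd_nb g (sign g υ), ← j_mf g hu hc, Set.image_image]
    exact Set.image_congr fun z _ => X_nb g (sign g υ) hs' z

/-- a bounded nonempty set which is mapped to itself by a translation -/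
theorem tr_zero {F : Set E} (h0 : F.Nonempty) (hb : Bornology.IsBounded F) {t : E}
    (h : ∀ z ∈ F, z + t ∈ F) : t = 0 := by
  obtain ⟨z, hz⟩ := h0
  obtain ⟨r, hr⟩ := isBounded_iff_forall_norm_le.1 hb
  have hn : ∀ n : ℕ, z + (n : ℝ) • t ∈ F := by
    intro n
    induction n with
    | zero => simpa using hz
    | succ n ih =>
      have h1 := h _ ih
      rw [add_assoc] at h1
      have e : ((n + 1 : ℕ) : ℝ) • t = (n : ℝ) • t + t := by
        push_cast
        rw [add_smul, one_smul]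
      rw [e]
      exact h1
  by_contra hne
  have hpos : 0 < ‖t‖ := norm_pos_iff.2 hne
  obtain ⟨n, hn'⟩ := exists_nat_gt ((r + ‖z‖) / ‖t‖)
  rw [div_lt_iff₀ hpos] at hn'
  have h1 := hr _ (hn n)
  have h2 : (n : ℝ) • t = (z + (n : ℝ) • t) - z := by abel
  have h3 : (n : ℝ) * ‖t‖ ≤ r + ‖z‖ := by
    calc (n : ℝ) * ‖t‖ = ‖(n : ℝ) • t‖ := by rw [norm_smul, Real.norm_natCast]
      _ = ‖(z + (n : ℝ) • t) - z‖ := by rw [← h2]
      _ ≤ ‖z + (n : ℝ) • t‖ + ‖z‖ := norm_sub_le _ _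
      _ ≤ r + ‖z‖ := by linarith
  exact absurd h3 (not_le.2 hn')

/-- in a star a label is determined by its sign and by the active set -/
theorem lab_eq {p : E} {τ σ σ' : g.Lab} (h : g.R p τ σ) (h' : g.R p τ σ') (hs : σ.1.1 = σ'.1.1)
    (ha : P.act (crd σ.1 p) = P.act (crd σ'.1 p)) : σ = σ' := by
  have hb : crd σ.1 p ∈ P.body := R_mem g h
  have hb' : crd σ'.1 p ∈ P.body := R_mem g h'
  have hG : P.mf (crd σ.1 p) = P.mf (crd σ'.1 p) := by
    rw [mf_eq hb, mf_eq hb', ha]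
  have hF : X σ.1 '' P.mf (crd σ.1 p) = X σ'.1 '' P.mf (crd σ.1 p) := by
    rw [X_mf g h, hG, X_mf g h']
  have hsq : σ.1.1 * σ.1.1 = 1 := by
    rcases sign g σ with h1 | h1 <;> rw [h1] <;> norm_num
  have key : σ.1.1 • (σ'.1.2 - σ.1.2) = 0 := by
    refine tr_zero (F := P.mf (crd σ.1 p)) ⟨_, mf_self hb⟩ (mf_bdd _) fun z hz => ?_
    have h1 : X σ'.1 z ∈ X σ.1 '' P.mf (crd σ.1 p) := by
      rw [hF]
      exact ⟨z, hz, rfl⟩
    obtain ⟨z', hz', he⟩ := h1
    have e : z + σ.1.1 • (σ'.1.2 - σ.1.2) = z' := by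
      unfold X at he
      rw [← hs] at he
      have h2 : σ.1.1 • z' = σ.1.1 • z + (σ'.1.2 - σ.1.2) := by
        rw [eq_sub_of_add_eq he]
        abel
      have h3 := congrArg (fun x => σ.1.1 • x) h2
      simp only [smul_add, smul_smul, hsq, one_smul] at h3
      exact h3.symm
    rw [e]
    exact hz'
  have key2 : σ'.1.2 - σ.1.2 = 0 := by
    have h3 := congrArg (fun x => σ.1.1 • x) key
    simp only [smul_smul, hsq, one_smul, smul_zero] at h3
    exact h3
  exact Subtype.ext (Prod.ext hs (sub_eq_zero.1 key2).symm)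

end Pool.FF24
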