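import Pool.Agent.FF24.LimS

set_option autoImplicit false

/-!
# FF24/Lim: the field `lim` of `FF65.Stars` (proved in LimS)

PROOF. `y n = crd (τ n) (f n) ∈ P` (compact) and the sign `(τ n).1.1` is 1 or -1: on a subsequence the sign is constant
`e` and `y n → y`. Let `q n = X (τ n) y`; `q n - f n = e (y - y n) → 0`, so `q n → p` on the subsequence, and `q n ∈ K (τ n)`,
`crd (τ n) (q n) = y`. Let `δ` be the number of `near` for `y`, `B = {σ | R (q n) (τ n) σ}` (finite), `n` so large that
`dist (q n) p < δ/2`. If `σ ∈ B`, `dist z p < δ/2` and `σ'` is one step from `σ` through the facet `u`, `crd σ z ∈ fc u`,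
then `dist (crd σ z) (crd σ (q n)) = dist z (q n) < δ`, `crd σ (q n) ∈ W y`, so `crd σ (q n) ∈ fc u`: the step is a step
at `q n`, so `σ' ∈ B`; induction over the chain. The number for the statement is `δ/2`.
-/

open Set Metric Filter Topology
open scoped RealInnerProductSpace

namespace Pool.FF24

variable {E : Type*} [NormedAddCommGroup E] [InnerProductSpace ℝ E] {P : HPoly E} (g : Glue P)

theorem body_compact [FiniteDimensional ℝ E] : IsCompact P.body :=
  body_compactS

theorem lim_field [FiniteDimensional ℝ E] (p : E) (f : ℕ → E) (τ : ℕ → g.Lab)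
    (h : ∀ n, f n ∈ g.K (τ n)) (hf : Tendsto f atTop (𝓝 p)) :
    ∃ δ > 0, ∃ᶠ n in atTop, ∃ B : Set g.Lab, B.Finite ∧ τ n ∈ B ∧
      ∀ σ ∈ B, ∀ z, dist z p < δ → ∀ σ', g.R z σ σ' → σ' ∈ B :=
  lim_fieldS g p f τ h hf

end Pool.FF24
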