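import Pool.Agent.FF24.Fin
import Pool.Agent.FF24.LocDef

set_option autoImplicit false

/-!
# FF24/LocA: local description of a tile and of the star (helper28)
-/

open Set Metric Filter Topology
open scoped RealInnerProductSpace

namespace Pool.FF24

variable {E : Type*} [NormedAddCommGroup E] [InnerProductSpace ℝ E] {P : HPoly E} (g : Glue P)

theorem inner_crd_add (τ : ℝ × E) (u p q : E) :
    ⟪u, crd τ q⟫ = ⟪u, crd τ p⟫ + τ.1 * ⟪u, q - p⟫ := by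
  unfold crd
  rw [inner_smul_right, inner_smul_right, ← mul_add, ← inner_add_right]
  congr 2
  abel

theorem K_near_ev {p : E} {σ : g.Lab} (hp : p ∈ g.K σ) : ∀ᶠ q in 𝓝 p,
    (q ∈ g.K σ ↔ q - p ∈ cone g p σ) ∧
    ∀ u ∈ P.N, q ∈ g.K σ → (crd σ.1 q ∈ P.fc u ↔
      u ∈ P.act (crd σ.1 p) ∧ σ.1.1 * ⟪u, q - p⟫ = 0) := by
  have hcont : ∀ u : E, Continuous fun q : E => ⟪u, crd σ.1 q⟫ := by
    intro u
    unfold crd
    fun_prop
  have h1 : ∀ᶠ q in 𝓝 p, ∀ u ∈ P.N, ⟪u, crd σ.1 p⟫ < P.h u → ⟪u, crd σ.1 q⟫ < P.h u := by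
    rw [Filter.eventually_all_finset]
    intro u _
    by_cases h : ⟪u, crd σ.1 p⟫ < P.h u
    · filter_upwards [(hcont u).continuousAt.eventually (gt_mem_nhds h)] with q hq _
      exact hq
    · exact Eventually.of_forall fun q h' => absurd h' h
  filter_upwards [h1] with q hq
  have hbody : ∀ u ∈ P.N, ⟪u, crd σ.1 p⟫ ≤ P.h u := hp
  have hact : ∀ u ∈ P.N, u ∉ P.act (crd σ.1 p) → ⟪u, crd σ.1 q⟫ < P.h u := by
    intro u hu hna
    refine hq u hu (lt_of_le_of_ne (hbody u hu) fun h => hna ⟨hu, h⟩)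
  constructor
  · constructor
    · intro h u hu
      have h2 : ⟪u, crd σ.1 q⟫ ≤ P.h u := h u hu.1
      rw [inner_crd_add σ.1 u p q, hu.2] at h2
      linarith
    · intro h u hu
      show ⟪u, crd σ.1 q⟫ ≤ P.h u
      by_cases hna : u ∈ P.act (crd σ.1 p)
      · have h2 : σ.1.1 * ⟪u, q - p⟫ ≤ 0 := h u hna
        rw [inner_crd_add σ.1 u p q, hna.2]
        linarith
      · exact (hact u hu hna).le
  · intro u hu hK
    constructor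
    · intro h
      have h2 : ⟪u, crd σ.1 q⟫ = P.h u := h.2
      by_cases hna : u ∈ P.act (crd σ.1 p)
      · refine ⟨hna, ?_⟩
        rw [inner_crd_add σ.1 u p q, hna.2] at h2
        linarith
      · exact absurd h2 (hact u hu hna).ne
    · rintro ⟨hna, h0⟩
      refine ⟨hK, ?_⟩
      show ⟪u, crd σ.1 q⟫ = P.h u
      rw [inner_crd_add σ.1 u p q, hna.2, h0, add_zero]

theorem K_near' {p : E} {σ : g.Lab} (hp : p ∈ g.K σ) : ∃ ρ > 0, ∀ q, dist q p < ρ →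
    (q ∈ g.K σ ↔ q - p ∈ cone g p σ) ∧
    ∀ u ∈ P.N, q ∈ g.K σ → (crd σ.1 q ∈ P.fc u ↔
      u ∈ P.act (crd σ.1 p) ∧ σ.1.1 * ⟪u, q - p⟫ = 0) := by
  obtain ⟨ρ, hρ, h⟩ := Metric.eventually_nhds_iff.1 (K_near_ev g hp)
  exact ⟨ρ, hρ, fun q hq => h hq⟩

theorem loc_of_cone' {p : E} {τ : g.Lab} (_hp : p ∈ g.K τ)
    (hcov : ∀ x, ∃ σ, g.R p τ σ ∧ x ∈ cone g p σ)
    (hjoin : ∀ x σ σ', g.R p τ σ → g.R p τ σ' → x ∈ cone g p σ → x ∈ cone g p σ' →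
      Relation.ReflTransGen (StC g p x) σ σ') :
    ∃ ρ > 0, (∀ q, dist q p < ρ → ∃ σ, g.R p τ σ ∧ q ∈ g.K σ) ∧
      ∀ q, dist q p < ρ → ∀ σ, g.R p τ σ → q ∈ g.K σ →
        ∀ σ', g.R q σ σ' ↔ g.R p τ σ' ∧ q ∈ g.K σ' := by
  have hev : ∀ᶠ q in 𝓝 p, ∀ σ ∈ {σ | g.R p τ σ},
      (q ∈ g.K σ ↔ q - p ∈ cone g p σ) ∧
      ∀ u ∈ P.N, q ∈ g.K σ → (crd σ.1 q ∈ P.fc u ↔
        u ∈ P.act (crd σ.1 p) ∧ σ.1.1 * ⟪u, q - p⟫ = 0) :=
    (star_finite g p τ).eventually_all.2 fun σ hσ => K_near_ev g (R_mem g hσ)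
  obtain ⟨ρ, hρ, h⟩ := Metric.eventually_nhds_iff.1 hev
  refine ⟨ρ, hρ, fun q hq => ?_, fun q hq σ hσ hqσ σ' => ⟨fun hR => ?_, fun hR => ?_⟩⟩
  · obtain ⟨σ, hσ, hx⟩ := hcov (q - p)
    exact ⟨σ, hσ, (h hq σ hσ).1.2 hx⟩
  · obtain ⟨hqK, hgen⟩ := hR
    have key : g.R p τ σ' ∧ q ∈ g.K σ' := by
      induction hgen with
      | refl => exact ⟨hσ, hqK⟩
      | @tail a b _ hab ih =>
        obtain ⟨u, hu, hc, hb⟩ := hab
        have h2 := ((h hq a ih.1).2 u hu ih.2).1 hc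
        have hst : g.St p a b := ⟨u, hu, ⟨R_mem g ih.1, h2.1.2⟩, hb⟩
        exact ⟨R_step g ih.1 hst, St_mem g ⟨u, hu, hc, hb⟩⟩
    exact key
  · have hx1 : q - p ∈ cone g p σ := (h hq σ hσ).1.1 hqσ
    have hx2 : q - p ∈ cone g p σ' := (h hq σ' hR.1).1.1 hR.2
    have hgen := hjoin (q - p) σ σ' hσ hR.1 hx1 hx2
    have key : Relation.ReflTransGen (g.St q) σ σ' ∧ g.R p τ σ' := by
      clear hx2 hR
      induction hgen with
      | refl => exact ⟨Relation.ReflTransGen.refl, hσ⟩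
      | @tail a b _ hab ih =>
        obtain ⟨hxa, u, hu, h0, hb⟩ := hab
        have hqa : q ∈ g.K a := (h hq a ih.2).1.2 hxa
        have hfc : crd a.1 q ∈ P.fc u := ((h hq a ih.2).2 u hu.1 hqa).2 ⟨hu, h0⟩
        have hst : g.St p a b := ⟨u, hu.1, ⟨R_mem g ih.2, hu.2⟩, hb⟩
        exact ⟨ih.1.tail ⟨u, hu.1, hfc, hb⟩, R_step g ih.2 hst⟩
    exact ⟨hqσ, key.1⟩

end Pool.FF24
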