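import Pool.Agent.FF24.ActTwo

set_option autoImplicit false

/-!
# FF24/RidB: the chain of tiles around a ridge

`RChain g p T a`: `T i` = the labels of the tiles around the ridge point `p`, `a i = (u_i, v_i)` = the two facets of the
tile `T i` through `p`, entered through `u_i` and left through `v_i`. `An g T a i = (T i).1.1 • u_i` = the real outer normal
of the entry facet; `- An g T a (i + 1)` is the real outer normal of the exit facet (`An_exit`).
`exists_rchain`: recursion with `act_two` (label `nbL`, `crd_nb`). `rchain_comb`: `act_two` times the sign of the label;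
`w` of `act_two` is `(a (i + 1)).2` as `{star v, w} = {star v, w'}`.
-/

open Set Metric
open scoped RealInnerProductSpace

namespace Pool.FF24

variable {E : Type*} [NormedAddCommGroup E] [InnerProductSpace ℝ E] {P : HPoly E} (g : Glue P)

/-- the chain of tiles around a ridge -/
structure RChain (p : E) (T : ℕ → g.Lab) (a : ℕ → E × E) : Prop where
  mem : ∀ i, p ∈ g.K (T i)
  ne : ∀ i, (a i).1 ≠ (a i).2
  act : ∀ i, P.act (crd (T i).1 p) = {(a i).1, (a i).2}
  ent : ∀ i, (a (i + 1)).1 = g.star (a i).2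
  step : ∀ i, (T (i + 1)).1 = g.nb (a i).2 (T i).1

/-- the real outer normal of the entry facet of the tile `T i` -/
noncomputable def An (T : ℕ → g.Lab) (a : ℕ → E × E) (i : ℕ) : E := (T i).1.1 • (a i).1

/-- states of the recursion -/
private def RSt (p : E) : Type _ := {s : g.Lab × (E × E) // p ∈ g.K s.1 ∧ s.2.1 ≠ s.2.2 ∧
  P.act (crd s.1.1 p) = {s.2.1, s.2.2}}

private theorem mem_right {p : E} {τ : g.Lab} {u v : E} (hp : p ∈ g.K τ)
    (ha : P.act (crd τ.1 p) = {u, v}) : v ∈ P.N ∧ crd τ.1 p ∈ P.fc v := by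
  have h1 : v ∈ P.act (crd τ.1 p) := by rw [ha]; exact Or.inr rfl
  exact ⟨h1.1, hp, h1.2⟩

private theorem rst_next (p : E) (s : RSt g p) : ∃ s' : RSt g p,
    s'.1.2.1 = g.star s.1.2.2 ∧ s'.1.1.1 = g.nb s.1.2.2 s.1.1.1 := by
  obtain ⟨⟨τ, u, v⟩, hp, huv, ha⟩ := s
  obtain ⟨hv, hfc⟩ := mem_right g hp ha
  obtain ⟨w, x, y, h1, h2, -, -⟩ := act_two g (y := crd τ.1 p) hp huv ha
  have h3 : crd (g.nb v τ.1) p = g.j v (crd τ.1 p) := crd_nb g (sign g τ) v p
  refine ⟨⟨(nbL g hv τ, (g.star v, w)), ?_, h2, ?_⟩, rfl, rfl⟩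
  · show crd (g.nb v τ.1) p ∈ P.body
    rw [h3]
    exact (j_mem g hv hfc).1
  · show P.act (crd (g.nb v τ.1) p) = _
    rw [h3]
    exact h1

theorem exists_rchain {p : E} {τ : g.Lab} (hp : p ∈ g.K τ) {u v : E} (huv : u ≠ v)
    (ha : P.act (crd τ.1 p) = {u, v}) : ∃ T a, RChain g p T a ∧ T 0 = τ ∧ a 0 = (u, v) := by
  choose f hf1 hf2 using rst_next g p
  let s : ℕ → RSt g p := fun n => Nat.rec ⟨(τ, (u, v)), hp, huv, ha⟩ (fun _ t => f t) n
  refine ⟨fun n => (s n).1.1, fun n => (s n).1.2, ⟨fun i => (s i).2.1, fun i => (s i).2.2.1,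
    fun i => (s i).2.2.2, fun i => hf1 (s i), fun i => hf2 (s i)⟩, rfl, rfl⟩

variable {g} {p : E} {T : ℕ → g.Lab} {a : ℕ → E × E}

private theorem rc_mem (h : RChain g p T a) (i : ℕ) :
    (a i).2 ∈ P.N ∧ crd (T i).1 p ∈ P.fc (a i).2 := mem_right g (h.mem i) (h.act i)

private theorem rc_crd (h : RChain g p T a) (i : ℕ) :
    crd (T (i + 1)).1 p = g.j (a i).2 (crd (T i).1 p) := by
  rw [h.step i]
  exact crd_nb g (sign g (T i)) _ p

theorem rchain_cross (h : RChain g p T a) (i : ℕ) : g.Cross (a i) (a (i + 1)) := by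
  refine ⟨h.ne i, h.ne (i + 1), h.ent i, crd (T i).1 p, h.mem i, h.act i, ?_⟩
  rw [← rc_crd h i]
  exact h.act (i + 1)

theorem An_exit (h : RChain g p T a) (i : ℕ) : An g T a (i + 1) = -((T i).1.1 • (a i).2) := by
  unfold An
  rw [h.ent i, h.step i]
  unfold Glue.nb Glue.star
  split_ifs with hI
  · rw [neg_smul]
  · rw [smul_neg]

private theorem rc_sign (h : RChain g p T a) (i : ℕ) :
    ((a i).2 ∈ g.I ∧ (T (i + 1)).1.1 = -(T i).1.1) ∨
      ((a i).2 ∉ g.I ∧ (T (i + 1)).1.1 = (T i).1.1) := by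
  rw [h.step i]
  unfold Glue.nb
  split_ifs with hI
  · exact Or.inl ⟨hI, rfl⟩
  · exact Or.inr ⟨hI, rfl⟩

theorem rchain_comb (h : RChain g p T a) (i : ℕ) : ∃ l m : ℝ, 0 < l ∧
    An g T a (i + 2) = -l • An g T a i + m • An g T a (i + 1) := by
  obtain ⟨w, x, y, h1, h2, hx, h3⟩ := act_two g (y := crd (T i).1 p) (h.mem i) (h.ne i) (h.act i)
  rw [← rc_crd h i, h.act (i + 1), h.ent i] at h1
  have hw : (a (i + 1)).2 = w := by
    have h4 : (a (i + 1)).2 ∈ ({g.star (a i).2, w} : Set E) := by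
      rw [← h1]
      exact Or.inr rfl
    rcases h4 with h4 | h4
    · exact absurd (h.ent i ▸ h4).symm (h.ne (i + 1))
    · exact h4
  refine ⟨x, y, hx, ?_⟩
  rw [show i + 2 = (i + 1) + 1 from rfl, An_exit h (i + 1), An_exit h i]
  unfold An
  rcases h3 with ⟨hI, h3⟩ | ⟨hI, h3⟩ <;> rcases rc_sign h i with ⟨hI', h5⟩ | ⟨hI', h5⟩
  · rw [h5, hw, h3]
    module
  · exact absurd hI hI'
  · exact absurd hI' hI
  · rw [h5, hw, h3]
    module

theorem rchain_indep (h : RChain g p T a) (i : ℕ) :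
    LinearIndependent ℝ ![An g T a i, An g T a (i + 1)] := by
  have hu : (a i).1 ∈ P.act (crd (T i).1 p) := by rw [h.act i]; exact Or.inl rfl
  have hv : (a i).2 ∈ P.act (crd (T i).1 p) := by rw [h.act i]; exact Or.inr rfl
  have h1 := act_pair (h.mem i) hu hv (h.ne i)
  rw [An_exit h i]
  unfold An
  rw [LinearIndependent.pair_iff] at h1 ⊢
  intro s t hst
  have h2 : (s * (T i).1.1) • (a i).1 + (-(t * (T i).1.1)) • (a i).2 = 0 := by
    rw [← hst]
    module
  obtain ⟨h3, h4⟩ := h1 _ _ h2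
  have h5 : (T i).1.1 ≠ 0 := by
    rcases sign g (T i) with h6 | h6 <;> rw [h6] <;> norm_num
  exact ⟨(mul_eq_zero.1 h3).resolve_right h5, (mul_eq_zero.1 (neg_eq_zero.1 h4)).resolve_right h5⟩

end Pool.FF24
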