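import Pool.Agent.FF24.RidB
import Pool.Agent.FF56.Wedge

set_option autoImplicit false

/-!
# FF24/RidC: the chain closes after 3, 4 or 6 steps

`rchain_R`: one step at a time (`R_step`).
`rchain_det`: equal flags have equal next flags: `y = crd (T i) p` and `y' = crd (T i') p` have the same active normals, so the
same minimal face (`mf_eq`); `g.j v` maps it onto the minimal faces of `g.j v y` and of `g.j v y'` (`j_mf`), so these two points
lie in each other's minimal face and have the same active normals; then `{star v, w} = {star v, w'}`.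
`rchain_eq`: `lab_eq`.
`rchain_per`: `Cyc` with `rchain_cross`: `a 3 = a 0`: `k = 3` if the sign of `T 3` is that of `T 0`, otherwise
`An 3 = - An 0`, `a (i + 3) = a i` and the signs of `T (i + 3)` and `T i` differ for all `i` and `k = 6`; or `a 4 = a 0` with an even
number of inversions (`k = 4`, the product of the four signs is `1`). If the chain closes once, `T k = T 0`, `a k = a 0`, it is
periodic (`rchain_det`, `step`).
-/

open Set Metric
open scoped RealInnerProductSpace

namespace Pool.FF24

variable {E : Type*} [NormedAddCommGroup E] [InnerProductSpace ℝ E] {P : HPoly E} {g : Glue P}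
  {p : E} {T : ℕ → g.Lab} {a : ℕ → E × E}

theorem RidC_mem (h : RChain g p T a) (i : ℕ) :
    (a i).2 ∈ P.N ∧ crd (T i).1 p ∈ P.fc (a i).2 := by
  have h1 : (a i).2 ∈ P.act (crd (T i).1 p) := by
    rw [h.act]
    exact Or.inr rfl
  exact ⟨h1.1, h.mem i, h1.2⟩

theorem rchain_R (h : RChain g p T a) (i : ℕ) : g.R p (T 0) (T i) := by
  induction i with
  | zero => exact R_refl g (h.mem 0)
  | succ i ih =>
    obtain ⟨h1, h2⟩ := RidC_mem h i
    exact R_step g ih ⟨(a i).2, h1, h2, h.step i⟩

/-- points with the same active normals are mapped to points with the same active normals -/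
theorem RidC_congr {y y' v : E} (hv : v ∈ P.N) (hy : y ∈ P.fc v) (hy' : y' ∈ P.fc v)
    (h : P.act y = P.act y') : P.act (g.j v y) = P.act (g.j v y') := by
  have h1 : P.mf y = P.mf y' := by rw [mf_eq hy.1, mf_eq hy'.1, h]
  have h2 : P.mf (g.j v y) = P.mf (g.j v y') := by rw [← j_mf g hv hy, ← j_mf g hv hy', h1]
  have b1 := (j_mem g hv hy).1
  have b2 := (j_mem g hv hy').1
  apply Subset.antisymm
  · have h3 : g.j v y' ∈ P.mf (g.j v y) := by
      rw [h2]
      exact mf_self b2
    rw [mf_eq b1] at h3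
    exact h3.2
  · have h3 : g.j v y ∈ P.mf (g.j v y') := by
      rw [← h2]
      exact mf_self b1
    rw [mf_eq b2] at h3
    exact h3.2

theorem RidC_snd {α : Type*} {u v w : α} (h : ({u, v} : Set α) = {u, w}) (huv : u ≠ v) : v = w := by
  have h1 : v ∈ ({u, w} : Set α) := h ▸ Or.inr rfl
  rcases h1 with h1 | h1
  · exact absurd h1.symm huv
  · exact h1

theorem rchain_det (h : RChain g p T a) {i i' : ℕ} (hi : a i = a i') : a (i + 1) = a (i' + 1) := by
  have h1 : (a (i + 1)).1 = (a (i' + 1)).1 := by rw [h.ent, h.ent, hi]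
  have hact : P.act (crd (T i).1 p) = P.act (crd (T i').1 p) := by rw [h.act, h.act, hi]
  obtain ⟨m1, m2⟩ := RidC_mem h i
  obtain ⟨-, m3⟩ := RidC_mem h i'
  rw [← hi] at m3
  have h2 : P.act (crd (T (i + 1)).1 p) = P.act (crd (T (i' + 1)).1 p) := by
    rw [h.step, h.step, crd_nb g (sign g _), crd_nb g (sign g _), ← hi]
    exact RidC_congr m1 m2 m3 hact
  rw [h.act, h.act, ← h1] at h2
  exact Prod.ext h1 (RidC_snd h2 (h.ne _))

theorem rchain_det_add (h : RChain g p T a) {i i' : ℕ} (hi : a i = a i') (r : ℕ) :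
    a (i + r) = a (i' + r) := by
  induction r with
  | zero => exact hi
  | succ r ih => exact rchain_det h ih

theorem rchain_eq (h : RChain g p T a) {m : ℕ} (ham : a m = a 0)
    (hs : (T m).1.1 = (T 0).1.1) : T m = T 0 :=
  lab_eq g (rchain_R h m) (rchain_R h 0) hs (by rw [h.act, h.act, ham])

theorem RidC_sgn (h : RChain g p T a) (i : ℕ) :
    ((a i).2 ∈ g.I ∧ (T (i + 1)).1.1 = -(T i).1.1) ∨
      ((a i).2 ∉ g.I ∧ (T (i + 1)).1.1 = (T i).1.1) := by
  rw [h.step]
  unfold Glue.nb
  by_cases hI : (a i).2 ∈ g.I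
  · left
    rw [if_pos hI]
    exact ⟨hI, rfl⟩
  · right
    rw [if_neg hI]
    exact ⟨hI, rfl⟩

open Classical in
theorem RidC_prod (h : RChain g p T a) (n : ℕ) :
    (T n).1.1 = (-1) ^ ((Finset.range n).filter fun i => (a i).2 ∈ g.I).card * (T 0).1.1 := by
  induction n with
  | zero => simp
  | succ n ih =>
    rw [Finset.range_add_one, Finset.filter_insert]
    rcases RidC_sgn h n with ⟨h1, h2⟩ | ⟨h1, h2⟩
    · rw [if_pos h1, Finset.card_insert_of_notMem (by simp), h2, ih, pow_succ]
      ring
    · rw [if_neg h1, h2, ih]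

theorem RidC_per (h : RChain g p T a) {k : ℕ} (ha : a k = a 0) (i : ℕ) : a (i + k) = a i := by
  have h1 := rchain_det_add h (i := k) (i' := 0) ha i
  rwa [Nat.add_comm k i, Nat.zero_add] at h1

theorem RidC_perT (h : RChain g p T a) {k : ℕ} (ha : a k = a 0) (hT : T k = T 0) (i : ℕ) :
    T (i + k) = T i := by
  induction i with
  | zero => rw [Nat.zero_add, hT]
  | succ i ih =>
    apply Subtype.ext
    rw [show i + 1 + k = (i + k) + 1 by omega, h.step, h.step, ih, RidC_per h ha]

theorem RidC_fin (h : RChain g p T a) {k : ℕ} (ha : a k = a 0) (hT : T k = T 0)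
    (hk : k = 3 ∨ k = 4 ∨ (k = 6 ∧ ∀ i, An g T a (i + 3) = -An g T a i)) :
    ∃ k : ℕ, FF56.Ring k (An g T a) ∧ (∀ i, T (i + k) = T i) ∧ ∀ i, a (i + k) = a i :=
  ⟨k, ⟨hk, fun i => by
    unfold An
    rw [RidC_perT h ha hT, RidC_per h ha], rchain_indep h 0, rchain_comb h⟩,
    RidC_perT h ha hT, RidC_per h ha⟩

theorem rchain_ring (h : RChain g p T a) (hC : g.Cyc) :
    ∃ k : ℕ, FF56.Ring k (An g T a) ∧ (∀ i, T (i + k) = T i) ∧ ∀ i, a (i + k) = a i := by
  classical
  rcases hC a (rchain_cross h) with h3 | ⟨h4, hev⟩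
  · have hper := RidC_per h h3
    rcases eq_or_ne ((T 3).1.1) ((T 0).1.1) with hs | hs
    · exact RidC_fin h h3 (rchain_eq h h3 hs) (Or.inl rfl)
    · have hneg0 : (T 3).1.1 = -(T 0).1.1 := by
        rcases sign g (T 3) with e1 | e1 <;> rcases sign g (T 0) with e2 | e2 <;>
          rw [e1, e2] at hs ⊢ <;> first | exact absurd rfl hs | norm_num
      have hneg : ∀ i, (T (i + 3)).1.1 = -(T i).1.1 := by
        intro i
        induction i with
        | zero => exact hneg0
        | succ i ih =>
          have e1 := RidC_sgn h i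
          have e2 := RidC_sgn h (i + 3)
          rw [hper i] at e2
          rw [show i + 1 + 3 = i + 3 + 1 by omega]
          rcases e1 with ⟨a1, a2⟩ | ⟨a1, a2⟩ <;> rcases e2 with ⟨b1, b2⟩ | ⟨b1, b2⟩
          · rw [b2, a2, ih]
          · exact absurd a1 b1
          · exact absurd b1 a1
          · rw [b2, a2, ih]
      have h6 : a 6 = a 0 := (hper 3).trans h3
      have hT6 : T 6 = T 0 := by
        refine rchain_eq h h6 ?_
        rw [hneg 3, hneg 0, neg_neg]
      refine RidC_fin h h6 hT6 (Or.inr (Or.inr ⟨rfl, fun i => ?_⟩))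
      unfold An
      rw [hneg, hper, neg_smul]
  · refine RidC_fin h h4 (rchain_eq h h4 ?_) (Or.inr (Or.inl rfl))
    rw [RidC_prod h 4]
    have h5 : Even ((Finset.range 4).filter fun i => (a i).2 ∈ g.I).card := by
      convert hev
    rw [h5.neg_one_pow, one_mul]

end Pool.FF24
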