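import Pool.Agent.FF24.RidC

set_option autoImplicit false

/-!
# FF24/RidE1: the star of the ridge point is the chain

`rchain_star`: one step through a facet containing `p` leads from `T i` to `T (i + 1)` (through `(a i).2`) or to `T (i - 1)`
(through `(a i).1 = star (a (i - 1)).2`, `nb_nb`), indices mod `k`.
-/

open Set Metric
open scoped RealInnerProductSpace

namespace Pool.FF24

variable {E : Type*} [NormedAddCommGroup E] [InnerProductSpace ℝ E] {P : HPoly E} {g : Glue P}
  {p : E} {T : ℕ → g.Lab} {a : ℕ → E × E}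

private theorem back (h : RChain g p T a) (i : ℕ) :
    (T i).1 = g.nb (a (i + 1)).1 (T (i + 1)).1 := by
  have hN : (a i).2 ∈ P.N := by
    have h1 : (a i).2 ∈ P.act (crd (T i).1 p) := by rw [h.act i]; exact Or.inr rfl
    exact h1.1
  rw [h.ent i, h.step i, nb_nb g hN]

theorem rchain_star (h : RChain g p T a) {k : ℕ} (hk : 0 < k) (hT : ∀ i, T (i + k) = T i)
    (ha : ∀ i, a (i + k) = a i) (σ : g.Lab) : g.R p (T 0) σ ↔ ∃ i < k, σ = T i := by
  have hTm : ∀ i, T (i % k) = T i := by
    have h1 : ∀ i n, T (i + n * k) = T i := by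
      intro i n
      induction n with
      | zero => rw [Nat.zero_mul, Nat.add_zero]
      | succ n ih => rw [Nat.succ_mul, ← Nat.add_assoc, hT, ih]
    intro i
    have h2 := h1 (i % k) (i / k)
    rw [Nat.mod_add_div' i k] at h2
    exact h2.symm
  constructor
  · rintro ⟨-, hR⟩
    suffices h1 : ∃ i, σ = T (i + 1) by
      obtain ⟨i, hi⟩ := h1
      exact ⟨(i + 1) % k, Nat.mod_lt _ hk, by rw [hTm]; exact hi⟩
    induction hR with
    | refl => exact ⟨k - 1, by rw [Nat.sub_add_cancel hk, ← Nat.zero_add k, hT]⟩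
    | @tail υ σ' _ hst ih =>
      obtain ⟨i, hi⟩ := ih
      obtain ⟨u, hu, hfc, hσ⟩ := hst
      have hu' : u ∈ P.act (crd (T (i + 1)).1 p) := by
        rw [← hi]
        exact ⟨hu, hfc.2⟩
      rw [h.act (i + 1)] at hu'
      rcases hu' with hu' | hu'
      · refine ⟨i + k - 1, ?_⟩
        rw [show i + k - 1 + 1 = i + k by omega, hT]
        apply Subtype.ext
        rw [hσ, hu', hi, ← back h i]
      · refine ⟨i + 1, ?_⟩
        apply Subtype.ext
        have hu'' : u = (a (i + 1)).2 := hu'
        rw [hσ, hu'', hi, ← h.step (i + 1)]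
  · rintro ⟨i, -, rfl⟩
    exact rchain_R h i

end Pool.FF24
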