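import Pool.Agent.FF24.Loc
import Pool.Agent.FF24.Act
import Pool.Agent.FF24.ActTwo
import Pool.Agent.FF56.Cone2

set_option autoImplicit false

/-!
# FF24/Two: points with exactly two facets (RIDGES) (STUB)

`act_two` (one step). `G = mf y` (the ridge), `act y = {u, v}`. `mf (j v y) = j v G`. Every `w'` active at `j v y` is orthogonal
to the directions of `j v G = ±` directions of `G = {u, v}^⊥` (near `y` the set `mf y` is `y + {u, v}^⊥`), so it is in the
plane of `u, v`; by `act_three` there are at most two active normals at `j v y`, and not only `star v` (then `mf` would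
be a whole facet). Orientation: with `e = -1` (`v ∈ I`) or `e = 1`, near `j v y` the facet `star v` is the set of the points
`j v y + e x`, `<v, x> = 0`, `<u, x> ≤ 0`, and it is also `{<w, .> ≤ h w}` in the hyperplane: so for `<v, x> = 0` the numbers
`<u, x>` and `e <w, x>` have the same sign; hence `w = e (a u + b v)` with `a > 0`, and `star v = - e v`:
`det (star v, w) = a det (u, v)` in any oriented basis of the plane.

`cone_two`: follow the ridge: labels `τ 0 = τ, τ (i+1) = nb (v i) (τ i)`, flags `(u i, v i)`, `a i = (u i, v i)` satisfies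
`Cross (a i) (a (i+1))`, so `Cyc` gives the period `m` = 2, 3, 4 of the flags; the labels close after `k` = `m` or `2 m` steps
(`lab_eq`). Real normals `n i = e_i v_i`, `e_(i+1) u_(i+1) = - n i`; all `det (n i, n (i-1)) > 0`. The plane lemma.
-/

open Set Metric
open scoped RealInnerProductSpace

namespace Pool.FF24

variable {E : Type*} [NormedAddCommGroup E] [InnerProductSpace ℝ E] {P : HPoly E} (g : Glue P)

theorem cone_two (hC : g.Cyc) {p u v : E} {τ : g.Lab} (hp : p ∈ g.K τ) (huv : u ≠ v)
    (h : P.act (crd τ.1 p) = {u, v}) :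
    (∀ x, ∃ σ, g.R p τ σ ∧ x ∈ cone g p σ) ∧
    ∀ x σ σ', g.R p τ σ → g.R p τ σ' → x ∈ cone g p σ → x ∈ cone g p σ' →
      Relation.ReflTransGen (StC g p x) σ σ' :=
  FF56.cone_two_of (fun hy huv h => act_two g hy huv h) hC hp huv h

end Pool.FF24
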