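import Pool.Agent.FF24.One
import Pool.Agent.FF24.Two
import Pool.Agent.FF24.Lim
import Pool.Agent.FF65.Abs
import Pool.Agent.FF85.TileCov

set_option autoImplicit false

/-!
# FF24/Stars: the tiles of a glued polytope satisfy the axioms `FF65.Stars`
-/

open Set Metric
open scoped RealInnerProductSpace

namespace Pool.FF24

variable {E : Type*} [NormedAddCommGroup E] [InnerProductSpace ℝ E] {P : HPoly E} (g : Glue P)

theorem K_closed (τ : g.Lab) : IsClosed (g.K τ) :=
  FF85.K_closed g τ

theorem K_convex (τ : g.Lab) : Convex ℝ (g.K τ) :=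
  FF85.K_convex g τ

theorem stars [FiniteDimensional ℝ E] (hC : g.Cyc) : FF65.Stars g.K g.Bad g.R where
  closed := K_closed g
  convex := K_convex g
  refl := fun _ _ h => R_refl g h
  mem := fun _ _ _ h => R_mem g h
  symm := fun _ _ _ h => R_symm g h
  trans := fun _ _ _ _ h h' => R_trans g h h'
  fin := fun p τ _ _ => star_finite g p τ
  loc := by
    intro p τ hp hτ
    have h1 : (∀ x, ∃ σ, g.R p τ σ ∧ x ∈ cone g p σ) ∧
        ∀ x σ σ', g.R p τ σ → g.R p τ σ' → x ∈ cone g p σ → x ∈ cone g p σ' →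
          Relation.ReflTransGen (StC g p x) σ σ' := by
      rcases good_act g hp hτ with h | ⟨u, h⟩ | ⟨u, v, huv, h⟩
      · exact cone_zero g hτ h
      · exact cone_one g hτ h
      · exact cone_two g hC hτ huv h
    obtain ⟨ρ, hρ, h2, h3⟩ := loc_of_cone g hτ h1.1 h1.2
    exact ⟨ρ, hρ, h2, fun q _ hq => h3 q hq⟩
  lim := lim_field g

end Pool.FF24
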