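import Pool.Agent.FF24.Stars
import Pool.Agent.FF24.Gal
import Pool.Agent.FF65.Over
import Pool.Agent.FF65.Gen
import Pool.Agent.FF65.Cov

set_option autoImplicit false

/-!
# FF24/Til: SUFFICIENCY: if the ridge condition holds then the tiles form a tiling
-/

open Set Metric Filter Topology
open scoped RealInnerProductSpace

namespace Pool.FF24

variable {E : Type*} [NormedAddCommGroup E] [InnerProductSpace ℝ E] {P : HPoly E} (g : Glue P)

/-- genericity -/
theorem gen_bad [FiniteDimensional ℝ E] : FF65.Gen g.Bad (residual E) := by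
  obtain ⟨AA, hc, hA, hB⟩ := Bad_sub g
  have hBad : ∀ z ∈ g.Bad, ∃ A ∈ AA, z ∈ A := by
    intro z hz
    have h1 := hB hz
    simp only [mem_iUnion] at h1
    obtain ⟨A, h2, h3⟩ := h1
    exact ⟨A, h2, h3⟩
  exact ⟨FF65.generic_off AA hc hA hBad, fun _ hw => FF65.generic_segment AA hc hA hBad hw,
    fun _ _ h => FF65.generic_triangle AA hc hA hBad h,
    fun _ hU hne => FF65.generic_frequently hU hne⟩

/-- all labels are reachable -/
theorem reach_all [FiniteDimensional ℝ E] (τ σ : g.Lab) : FF65.Reach g.Bad g.R τ σ := gallery g τ σ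

theorem body_closedT (P : HPoly E) : IsClosed P.body := by
  have e : P.body = ⋂ u ∈ P.N, {z | ⟪u, z⟫ ≤ P.h u} := by
    ext z
    simp only [Set.mem_iInter]
    exact Iff.rfl
  rw [e]
  refine isClosed_biInter fun u _ => isClosed_le ?_ continuous_const
  fun_prop

theorem body_compactT [FiniteDimensional ℝ E] (P : HPoly E) : IsCompact P.body := by
  obtain ⟨r, hr⟩ := P.bdd
  refine (isCompact_closedBall (0 : E) r).of_isClosed_subset (body_closedT P) ?_
  intro z hz
  rw [mem_closedBall_zero_iff]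
  exact hr z hz

theorem body_interiorT (P : HPoly E) : (interior P.body).Nonempty := by
  obtain ⟨z, hz⟩ := P.int
  refine ⟨z, ?_⟩
  have h1 : IsOpen {x : E | ∀ u ∈ P.N, ⟪u, x⟫ < P.h u} := by
    have e : {x : E | ∀ u ∈ P.N, ⟪u, x⟫ < P.h u} = ⋂ u ∈ P.N, {x | ⟪u, x⟫ < P.h u} := by
      ext x
      simp only [Set.mem_iInter]
      exact Iff.rfl
    rw [e]
    refine P.N.finite_toSet.isOpen_biInter fun u _ => isOpen_lt ?_ continuous_const
    fun_prop
  exact mem_interior.2 ⟨_, fun x hx u hu => (hx u hu).le, h1, hz⟩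

/-- the isometry of a sign -/
noncomputable def sgn (e : ℝ) : E ≃ₗᵢ[ℝ] E := by
  classical
  exact if e = -1 then LinearIsometryEquiv.neg ℝ else LinearIsometryEquiv.refl ℝ E

theorem sgn_apply {e : ℝ} (h : e = 1 ∨ e = -1) (z : E) : sgn e z = e • z := by
  classical
  unfold sgn
  rcases h with h | h
  · rw [if_neg (by rw [h]; norm_num), h, one_smul]
    rfl
  · rw [if_pos h, h, neg_smul, one_smul]
    rfl

theorem K_image (τ : g.Lab) : g.K τ = (fun z => sgn τ.1.1 z + τ.1.2) '' P.body := by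
  have hs := sign g τ
  ext p
  constructor
  · intro hp
    refine ⟨crd τ.1 p, hp, ?_⟩
    change sgn τ.1.1 (crd τ.1 p) + τ.1.2 = p
    rw [sgn_apply hs]
    exact X_crd hs p
  · rintro ⟨z, hz, rfl⟩
    change crd τ.1 (sgn τ.1.1 z + τ.1.2) ∈ P.body
    rw [sgn_apply hs]
    have h1 : crd τ.1 (X τ.1 z) = z := crd_X hs z
    have h2 : crd τ.1 (τ.1.1 • z + τ.1.2) = z := h1
    rw [h2]
    exact hz

/-- the tiles do not overlap -/
theorem tiles_disjoint [FiniteDimensional ℝ E] (hC : g.Cyc) {τ σ : g.Lab} (hne : τ ≠ σ) :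
    Disjoint (interior (g.K τ)) (interior (g.K σ)) := by
  rw [Set.disjoint_iff_inter_eq_empty]
  by_contra hcon
  exact hne (FF65.no_overlap (stars g hC) (gen_bad g) (fun τ => (K_closure g τ).1)
    (fun p τ σ _ hp h => R_interior g hp h) (reach_all g τ σ) (Set.nonempty_iff_ne_empty.2 hcon))

/-- the tiles cover the space -/
theorem tiles_cover [FiniteDimensional ℝ E] (hC : g.Cyc) : ⋃ τ : g.Lab, g.K τ = univ := by
  refine FF65.congruent_cover (body_compactT P) (body_interiorT P) (fun τ : g.Lab => sgn τ.1.1)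
    (fun τ => τ.1.2) g.K (K_image g) (fun τ σ h => tiles_disjoint g hC h) ?_
  have τ₀ : g.Lab := ⟨(1, 0), Glue.Orb.base⟩
  refine (FF65.cover_dense (stars g hC) (gen_bad g) (K_closure g τ₀).1).mono ?_
  intro z hz
  simp only [mem_iUnion] at hz
  obtain ⟨σ, -, h3⟩ := hz
  exact mem_iUnion.2 ⟨σ, h3⟩

/-- SUFFICIENCY -/
theorem tiling [FiniteDimensional ℝ E] (hC : g.Cyc) :
    (∀ τ σ : g.Lab, τ ≠ σ → Disjoint (interior (g.K τ)) (interior (g.K σ))) ∧
      ∀ z, ∃ τ : g.Lab, z ∈ g.K τ :=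
  ⟨fun _ _ h => tiles_disjoint g hC h, fun z => by
    have h1 : z ∈ ⋃ τ : g.Lab, g.K τ := by
      rw [tiles_cover g hC]
      exact mem_univ z
    exact mem_iUnion.1 h1⟩

end Pool.FF24
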